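import Mathlib
import Pool.Agent.Helper889.Br.Branch

set_option autoImplicit false
set_option linter.unusedSectionVars false
set_option linter.unusedVariables false

namespace Pool.Agent.Helper889.Nb

open Pool.Agent.Helper889.Br

variable {S : Sys}

/-- one step of the Schreier graph -/
def Step (x y : S.Bd) : Prop := (∃ h, dir 0 h x = y) ∨ (∃ a, root a x = y)

theorem Step_refl (x : S.Bd) : Step x x := Or.inl ⟨1, by rw [map_one]; rfl⟩

theorem Step_symm {x y : S.Bd} (h : Step x y) : Step y x := by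
  rcases h with ⟨h, rfl⟩ | ⟨a, rfl⟩
  · exact Or.inl ⟨h⁻¹, by rw [map_inv]; exact (dir 0 h).symm_apply_apply x⟩
  · exact Or.inr ⟨a⁻¹, by rw [map_inv]; exact (root a).symm_apply_apply x⟩

/-- paths -/
inductive Reach : ℕ → S.Bd → S.Bd → Prop
  | zero (x : S.Bd) : Reach 0 x x
  | succ {n : ℕ} {x y z : S.Bd} : Reach n x y → Step y z → Reach (n+1) x z

theorem Reach_trans {n m : ℕ} {x y z : S.Bd} (h : Reach n x y) (h' : Reach m y z) : Reach (n+m) x z := by
  induction h' with
  | zero _ => exact h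
  | succ _ hs ih => exact Reach.succ (ih h) hs

theorem Reach_symm {n : ℕ} {x y : S.Bd} (h : Reach n x y) : Reach n y x := by
  induction h with
  | zero _ => exact Reach.zero _
  | @succ n x y z _ hs ih =>
    have h1 : Reach 1 z y := Reach.succ (Reach.zero z) (Step_symm hs)
    have := Reach_trans h1 ih
    rwa [add_comm] at this

theorem Reach_self (n : ℕ) (x : S.Bd) : Reach n x x := by
  induction n with
  | zero => exact Reach.zero x
  | succ n ih => exact Reach.succ ih (Step_refl x)

theorem Reach_mono {n m : ℕ} (hnm : n ≤ m) {x y : S.Bd} (h : Reach n x y) : Reach m x y := by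
  have := Reach_trans h (Reach_self (m - n) y)
  rwa [Nat.add_sub_cancel' hnm] at this

theorem Step_change {x y : S.Bd} (h : Step x y) {k : ℕ} (hk : x (k+1) ≠ y (k+1)) : S.Sg 0 k x ∧ S.Sg 0 k y := by
  rcases h with ⟨h, rfl⟩ | ⟨a, rfl⟩
  · have h1 : S.Sg 0 k x := by
      by_contra hc
      apply hk
      rw [dir_apply, dirPt_succ_neg h hc]
    exact ⟨h1, by rw [dir_apply]; exact (Sg_dirPt h x).2 h1⟩
  · exact absurd rfl hk

theorem change {n : ℕ} {x y : S.Bd} (h : Reach n x y) {k : ℕ} (hk : x k ≠ y k) :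
    ∃ i j z w, Reach i x z ∧ Step z w ∧ z k ≠ w k ∧ Reach j w y ∧ i + 1 + j = n := by
  induction h with
  | zero _ => exact absurd rfl hk
  | @succ n x y z hxy hs ih =>
    by_cases hyz : y k = z k
    · obtain ⟨i, j, u, w, h1, h2, h3, h4, h5⟩ := ih (by rw [hyz]; exact hk)
      exact ⟨i, j + 1, u, w, h1, h2, h3, Reach.succ h4 hs, by omega⟩
    · exact ⟨n, 0, y, z, hxy, hs, hyz, Reach.zero _, by omega⟩

theorem dist_lower (k : ℕ) : ∀ n (x y : S.Bd), Reach n x y → (∀ j < k+1, x j = S.o j) → S.Sg 0 k y → 2^(k+1) ≤ n + 1 := by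
  induction k with
  | zero =>
    intro n x y h hx hy
    cases n with
    | zero =>
      exfalso
      cases h
      have := hx 0 (by omega)
      rw [hy.2.1] at this
      exact S.hot 0 this.symm
    | succ n => norm_num
  | succ k ih =>
    intro n x y h hx hy
    have hne : x (k+1) ≠ y (k+1) := by
      rw [hx _ (by omega), hy.2.1]; exact S.hot _
    obtain ⟨i, j, z, w, h1, h2, h3, h4, h5⟩ := change h hne
    obtain ⟨hz, hw⟩ := Step_change h2 h3
    have e1 := ih i x z h1 (fun j hj => hx j (by omega)) hz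
    have e2 := ih j y w (Reach_symm h4) (fun j hj => hy.2.2 j (Nat.zero_le _) hj) hw
    have : 2 ^ (k+1+1) = 2^(k+1) + 2^(k+1) := by ring
    omega

/-- good scales -/
def Good (K : ℕ) (x : S.Bd) : Prop := x (K+1) ≠ S.o (K+1) ∨ ∀ j, K + 1 ≤ j → x j = S.o j

theorem Good_exists (x : S.Bd) (K0 : ℕ) : ∃ K, K0 ≤ K ∧ Good K x := by
  by_cases h : ∃ N, ∀ j, N ≤ j → x j = S.o j
  · obtain ⟨N, hN⟩ := h
    exact ⟨max K0 N, le_max_left _ _, Or.inr fun j hj => hN j (by have := le_max_right K0 N; omega)⟩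
  · push Not at h
    obtain ⟨j, hj, hj'⟩ := h (K0 + 1)
    obtain ⟨j, rfl⟩ : ∃ i, j = i + 1 := ⟨j - 1, by omega⟩
    exact ⟨j, by omega, Or.inl hj'⟩

theorem reach_local {K : ℕ} {x : S.Bd} (hg : Good K x) : ∀ n (y : S.Bd), Reach n x y → n + 1 < 2^(K+1) → ∀ j, K + 3 ≤ j → y j = x j := by
  intro n
  induction n with
  | zero => intro y h _ j _; cases h; rfl
  | succ n ih =>
    intro y h hn j hj
    cases h with
    | @succ _ _ z _ hxz hzy =>
      have ihz := ih z hxz (by omega)
      by_contra hne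
      have hne' : z j ≠ y j := by rw [ihz j hj]; exact Ne.symm hne
      obtain ⟨j, rfl⟩ : ∃ i, j = i + 1 := ⟨j - 1, by omega⟩
      have hsg := (Step_change hzy hne').1
      -- a change at place `K+1` before a point `u` with `o^(K+2)`
      have key : ∀ m (u : S.Bd), Reach m x u → m ≤ n → (∀ i < K + 2, u i = S.o i) → x (K+1) = S.o (K+1) := by
        intro m u hu hm huo
        by_contra hx
        obtain ⟨i, l, a, b, h1, h2, h3, h4, h5⟩ := change hu (k := K+1) (by rw [huo _ (by omega)]; exact hx)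
        have e := dist_lower K l u b (Reach_symm h4) (fun j hj => huo j (by omega)) (Step_change h2 h3).2
        omega
      have hz1 : x (K+1) = S.o (K+1) := key n z hxz le_rfl fun i hi => hsg.2.2 i (Nat.zero_le _) (by omega)
      have hall : ∀ j, K + 1 ≤ j → x j = S.o j := by
        rcases hg with h | h
        · exact absurd hz1 h
        · exact h
      have hzj : z j ≠ x j := by
        rw [hsg.2.1, hall j (by omega)]; exact (S.hot j).symm
      have hjK : j = K + 2 := by
        by_contra hc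
        exact hzj (ihz j (by omega))
      subst hjK
      obtain ⟨i, l, a, b, h1, h2, h3, h4, h5⟩ := change hxz (Ne.symm hzj)
      have ha := (Step_change h2 h3).1
      obtain ⟨i', l', a', b', h1', h2', h3', h4', h5'⟩ := change h1 (k := K+1) (by
        rw [hz1, ha.2.1]; exact S.hot _)
      have e := dist_lower K l' a b' (Reach_symm h4') (fun j hj => ha.2.2 j (Nat.zero_le _) (by omega)) (Step_change h2' h3').2
      omega

theorem reach_GG {g : Equiv.Perm S.Bd} (hg : g ∈ GG S) : ∃ C, ∀ x, Reach C x (g x) := by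
  unfold GG at hg
  induction hg using Subgroup.closure_induction with
  | mem g hg =>
    refine ⟨1, fun x => Reach.succ (Reach.zero x) ?_⟩
    rcases hg with ⟨h, rfl⟩ | ⟨a, rfl⟩
    · exact Or.inl ⟨h, rfl⟩
    · exact Or.inr ⟨a, rfl⟩
  | one => exact ⟨0, fun x => Reach.zero x⟩
  | mul a b _ _ iha ihb =>
    obtain ⟨C, hC⟩ := iha
    obtain ⟨D, hD⟩ := ihb
    exact ⟨D + C, fun x => Reach_trans (hD x) (hC (b x))⟩
  | inv a _ ih =>
    obtain ⟨C, hC⟩ := ih
    refine ⟨C, fun x => ?_⟩
    have := Reach_symm (hC (a⁻¹ x))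
    have e : a (a⁻¹ x) = x := a.apply_symm_apply x
    rwa [e] at this

/-- positive words -/
def wd {G : Type} [Group G] (a b : G) (l : List Bool) : G := (l.map fun c => if c then a else b).prod

theorem reach_wd {a b : Equiv.Perm S.Bd} {C : ℕ} (ha : ∀ x, Reach C x (a x)) (hb : ∀ x, Reach C x (b x)) (l : List Bool)
    (x : S.Bd) : Reach (l.length * C) x (wd a b l x) := by
  induction l with
  | nil =>
    simp only [wd, List.map_nil, List.prod_nil, List.length_nil, zero_mul]
    exact Reach.zero x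
  | cons c l ih =>
    have e : wd a b (c :: l) = (if c then a else b) * wd a b l := by
      simp only [wd, List.map_cons, List.prod_cons]
    rw [e, List.length_cons, add_mul, one_mul]
    refine Reach_trans ih ?_
    cases c
    · exact hb _
    · exact ha _

/-- no free orbits -/
theorem no_free_orbit (hgr : ∀ C : ℕ, ∃ K0, ∀ K, K0 ≤ K → ∃ r, r * C + 1 < 2^(K+1) ∧ Fintype.card (S.V (K+3)) < 2^r)
    {a b : Equiv.Perm S.Bd} (ha : a ∈ GG S) (hb : b ∈ GG S) (x : S.Bd) :
    ∃ l l' : List Bool, l ≠ l' ∧ l.length = l'.length ∧ wd a b l x = wd a b l' x := by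
  obtain ⟨C1, hC1⟩ := reach_GG ha
  obtain ⟨C2, hC2⟩ := reach_GG hb
  set C := max C1 C2 with hC
  have ha' : ∀ x, Reach C x (a x) := fun x => Reach_mono (le_max_left _ _) (hC1 x)
  have hb' : ∀ x, Reach C x (b x) := fun x => Reach_mono (le_max_right _ _) (hC2 x)
  obtain ⟨K0, hK0⟩ := hgr C
  obtain ⟨K, hK, hgood⟩ := Good_exists x K0
  obtain ⟨r, hr1, hr2⟩ := hK0 K hK
  have hcard : Fintype.card (S.V (K+3)) < Fintype.card (List.Vector Bool r) := by
    rw [card_vector, Fintype.card_bool]; exact hr2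
  obtain ⟨l, l', hne, he⟩ := Fintype.exists_ne_map_eq_of_card_lt (fun l : List.Vector Bool r => pre (K+3) (wd a b l.1 x)) hcard
  refine ⟨l.1, l'.1, fun h => hne (Subtype.ext h), by rw [l.2, l'.2], ?_⟩
  have hloc : ∀ l : List.Vector Bool r, ∀ j, K + 3 ≤ j → wd a b l.1 x j = x j := by
    intro l
    have h1 := reach_wd ha' hb' l.1 x
    rw [l.2] at h1
    exact reach_local hgood _ _ h1 hr1
  funext j
  by_cases hj : j < K + 3
  · exact pre_eq_iff.1 he j hj
  · rw [hloc l j (by omega), hloc l' j (by omega)]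

end Pool.Agent.Helper889.Nb
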