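import Mathlib
import Pool.Agent.Helper889.Br.Branch

set_option autoImplicit false
set_option linter.unusedSectionVars false
set_option linter.unusedVariables false

namespace Pool.Agent.Helper889.Nb

open Pool.Agent.Helper889.Br
open scoped commutatorElement

variable {S : Sys}

open Classical in
/-- `a` acting on the letter after `o^n` -/
noncomputable def rt (n : ℕ) : Equiv.Perm (S.X n) →* Equiv.Perm S.Bd where
  toFun := fun a =>
    { toFun := fun x => if pre n x = ow n then Function.update x n (a (x n)) else x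
      invFun := fun x => if pre n x = ow n then Function.update x n (a.symm (x n)) else x
      left_inv := fun x => by
        by_cases hx : pre n x = ow n
        · simp only [if_pos hx, pre_update, Function.update_self, Equiv.symm_apply_apply, Function.update_idem,
            Function.update_eq_self]
        · simp only [if_neg hx]
      right_inv := fun x => by
        by_cases hx : pre n x = ow n
        · simp only [if_pos hx, pre_update, Function.update_self, Equiv.apply_symm_apply, Function.update_idem,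
            Function.update_eq_self]
        · simp only [if_neg hx] }
  map_one' := by
    ext x : 1
    show (if pre n x = ow n then Function.update x n ((1 : Equiv.Perm (S.X n)) (x n)) else x) = x
    split_ifs
    · rw [Equiv.Perm.one_apply, Function.update_eq_self]
    · rfl
  map_mul' := fun a b => by
    ext x : 1
    show (if pre n x = ow n then Function.update x n ((a * b) (x n)) else x)
      = if pre n (if pre n x = ow n then Function.update x n (b (x n)) else x) = ow n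
          then Function.update (if pre n x = ow n then Function.update x n (b (x n)) else x) n
            (a ((if pre n x = ow n then Function.update x n (b (x n)) else x) n))
          else (if pre n x = ow n then Function.update x n (b (x n)) else x)
    by_cases hx : pre n x = ow n
    · simp only [if_pos hx, pre_update, Function.update_self, Function.update_idem]; rfl
    · simp only [if_neg hx]

theorem rt_pos {n : ℕ} (a : Equiv.Perm (S.X n)) {x : S.Bd} (hx : pre n x = ow n) :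
    rt n a x = Function.update x n (a (x n)) := if_pos hx

theorem rt_neg {n : ℕ} (a : Equiv.Perm (S.X n)) {x : S.Bd} (hx : pre n x ≠ ow n) : rt n a x = x := if_neg hx

theorem pre_rt (n : ℕ) (a : Equiv.Perm (S.X n)) (x : S.Bd) : pre n (rt n a x) = pre n x := by
  by_cases hx : pre n x = ow n
  · rw [rt_pos a hx, pre_update]
  · rw [rt_neg a hx]

/-- elements living at the vertex `o^n` -/
def Loc (n : ℕ) (x : Equiv.Perm S.Bd) : Prop :=
  (∀ z, pre n (x z) = pre n z) ∧ (∀ z, pre n z ≠ ow n → x z = z)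

theorem app_inv (x : Equiv.Perm S.Bd) (z : S.Bd) : x (x⁻¹ z) = z := x.apply_symm_apply z
theorem inv_app (x : Equiv.Perm S.Bd) (z : S.Bd) : x⁻¹ (x z) = z := x.symm_apply_apply z

theorem Loc_inv {n : ℕ} {x : Equiv.Perm S.Bd} (hx : Loc n x) : Loc n x⁻¹ := by
  refine ⟨fun z => ?_, fun z hz => ?_⟩
  · rw [← hx.1 (x⁻¹ z), app_inv]
  · conv_lhs => rw [← hx.2 z hz]
    rw [inv_app]

theorem Loc_mul {n : ℕ} {x y : Equiv.Perm S.Bd} (hx : Loc n x) (hy : Loc n y) : Loc n (x * y) := by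
  refine ⟨fun z => ?_, fun z hz => ?_⟩
  · rw [Equiv.Perm.mul_apply, hx.1, hy.1]
  · rw [Equiv.Perm.mul_apply, hy.2 z hz, hx.2 z hz]

theorem Loc_one {n : ℕ} : Loc n (1 : Equiv.Perm S.Bd) := ⟨fun _ => rfl, fun _ _ => rfl⟩

theorem Loc_dd (n : ℕ) (h : S.H) : Loc n (dd n h) :=
  ⟨fun z => pre_mono (Nat.le_succ n) (pre_dd n h z), fun z hz => dd_neg h hz⟩

theorem Loc_rt (n : ℕ) (a : Equiv.Perm (S.X n)) : Loc n (rt n a) := ⟨pre_rt n a, fun z hz => rt_neg a hz⟩

/-- the rooted parts -/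
def AA (S : Sys) : ∀ n, Subgroup (Equiv.Perm (S.X n))
  | 0 => ⊤
  | (k+1) => (S.ρ k).range

/-- the copy of the group of level `n` at the vertex `o^n` -/
def GH (S : Sys) (n : ℕ) : Subgroup (Equiv.Perm S.Bd) :=
  Subgroup.closure (Set.range (dd (S := S) n) ∪ rt n '' (AA S n : Set (Equiv.Perm (S.X n))))

theorem dd_GH (n : ℕ) (h : S.H) : dd n h ∈ GH S n := Subgroup.subset_closure (Or.inl ⟨h, rfl⟩)

theorem rt_GH (n : ℕ) {a : Equiv.Perm (S.X n)} (ha : a ∈ AA S n) : rt n a ∈ GH S n :=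
  Subgroup.subset_closure (Or.inr ⟨a, ha, rfl⟩)

theorem Loc_GH {n : ℕ} {x : Equiv.Perm S.Bd} (hx : x ∈ GH S n) : Loc n x := by
  unfold GH at hx
  induction hx using Subgroup.closure_induction with
  | mem g hg =>
    rcases hg with ⟨h, rfl⟩ | ⟨a, _, rfl⟩
    · exact Loc_dd n h
    · exact Loc_rt n a
  | one => exact Loc_one
  | mul a b _ _ iha ihb => exact Loc_mul iha ihb
  | inv a _ ih => exact Loc_inv ih

theorem rt_zero (a : Equiv.Perm (S.X 0)) : rt 0 a = root a := by
  ext x : 1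
  rw [rt_pos a (funext fun i => i.elim0)]
  funext i
  cases i with
  | zero => rw [Function.update_self, root_zero]
  | succ k => rw [Function.update_of_ne (by omega), root_succ]

theorem GH_zero : GH S 0 = GG S := by
  unfold GH GG
  congr 1
  have h1 : Set.range (dd (S := S) 0) = Set.range (dir (S := S) 0) := by
    ext g; constructor
    · rintro ⟨h, rfl⟩; exact ⟨h, (dd_zero h).symm⟩
    · rintro ⟨h, rfl⟩; exact ⟨h, dd_zero h⟩
  have h2 : rt 0 '' (AA S 0 : Set (Equiv.Perm (S.X 0))) = Set.range (root (S := S)) := by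
    ext g; constructor
    · rintro ⟨a, _, rfl⟩; exact ⟨a, (rt_zero a).symm⟩
    · rintro ⟨a, rfl⟩; exact ⟨a, Subgroup.mem_top a, rt_zero a⟩
  rw [h1, h2]

/-- agreement at `o^n` -/
def Agr (n : ℕ) (g x : Equiv.Perm S.Bd) : Prop := ∀ z, pre n z = ow n → g z = x z

theorem Agr_mul {n : ℕ} {g g' x x' : Equiv.Perm S.Bd} (h : Agr n g x) (h' : Agr n g' x') (hx' : Loc n x') :
    Agr n (g * g') (x * x') := fun z hz => by
  rw [Equiv.Perm.mul_apply, Equiv.Perm.mul_apply, h' z hz, h _ (by rw [hx'.1, hz])]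

theorem Agr_inv {n : ℕ} {g x : Equiv.Perm S.Bd} (h : Agr n g x) (hx : Loc n x) : Agr n g⁻¹ x⁻¹ := fun z hz => by
  have h1 : g (x⁻¹ z) = z := by
    rw [h _ (by rw [(Loc_inv hx).1, hz]), app_inv]
  conv_lhs => rw [← h1]
  rw [inv_app]

theorem Agr_dir (n : ℕ) (h : S.H) : Agr n (dir 0 h) (dd n h) := fun z hz => by
  rw [dir_apply, dd_pos h hz, dirPt_zero_of_pre hz]

theorem Agr_mono {n m : ℕ} (hnm : n ≤ m) {g x : Equiv.Perm S.Bd} (h : Agr n g x) : Agr m g x := fun z hz => by
  refine h z ?_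
  funext i
  exact congrFun hz ⟨i, by have := i.2; omega⟩

theorem Agr_trans {n : ℕ} {g x y : Equiv.Perm S.Bd} (h : Agr n g x) (h' : Agr n x y) : Agr n g y := fun z hz =>
  (h z hz).trans (h' z hz)

/-! ### conjugates of the directed elements by elements which act on one letter -/

theorem pre_succ_iff {n : ℕ} {z : S.Bd} : pre (n+1) z = ow (n+1) ↔ pre n z = ow n ∧ z n = S.o n := by
  constructor
  · intro h
    exact ⟨funext fun i => congrFun h ⟨i, by have := i.2; omega⟩, congrFun h ⟨n, by omega⟩⟩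
  · rintro ⟨h1, h2⟩
    funext i
    obtain ⟨i, hi⟩ := i
    by_cases hin : i = n
    · subst hin; exact h2
    · exact congrFun h1 ⟨i, by omega⟩

theorem dirPt_trivial {n : ℕ} (h : S.H) {x : S.Bd} (ho : x n ≠ S.o n) (ht : x n ≠ S.t n) : S.dirPt n h x = x := by
  funext i
  cases i with
  | zero => rfl
  | succ k =>
    refine dirPt_succ_neg _ fun hs => ?_
    rcases hs.1.lt_or_eq with hlt | heq
    · exact ho (hs.2.2 n le_rfl hlt)
    · subst heq; exact ht hs.2.1

theorem dirPt_t {n : ℕ} (h : S.H) {x : S.Bd} (ht : x n = S.t n) :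
    S.dirPt n h x = Function.update x (n+1) (S.ρ n h (x (n+1))) := by
  have hs : S.Sg n n x := ⟨le_rfl, ht, fun j h1 h2 => by omega⟩
  funext i
  by_cases hi : i = n + 1
  · subst hi
    rw [dirPt_succ_pos _ hs, Function.update_self]
  · rw [Function.update_of_ne hi]
    cases i with
    | zero => rfl
    | succ k =>
      refine dirPt_succ_neg _ fun hs' => hi ?_
      rw [Sg_unique hs hs']

/-- the conjugates -/
noncomputable def cc (n : ℕ) (q : Equiv.Perm (S.X n)) (h : S.H) : Equiv.Perm S.Bd := rt n q * dd n h * (rt n q)⁻¹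

theorem cc_eval {n : ℕ} (q : Equiv.Perm (S.X n)) (h : S.H) {z : S.Bd} (hz : pre n z = ow n) :
    cc n q h z = Function.update (S.dirPt n h (Function.update z n (q⁻¹ (z n)))) n (z n) := by
  unfold cc
  have h1 : (rt n q)⁻¹ z = Function.update z n (q⁻¹ (z n)) := by
    rw [← map_inv, rt_pos _ hz]
  have hp : pre n (Function.update z n (q⁻¹ (z n))) = ow n := by rw [pre_update]; exact hz
  rw [Equiv.Perm.mul_apply, Equiv.Perm.mul_apply, h1, dd_pos h hp, rt_pos _ (by rw [pre_dirPt]; exact hp),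
    dirPt_le _ _ le_rfl, Function.update_self]
  congr 1
  exact q.apply_symm_apply _

theorem Loc_cc (n : ℕ) (q : Equiv.Perm (S.X n)) (h : S.H) : Loc n (cc n q h) :=
  Loc_mul (Loc_mul (Loc_rt n q) (Loc_dd n h)) (Loc_inv (Loc_rt n q))

theorem cc_GH (n : ℕ) {q : Equiv.Perm (S.X n)} (hq : q ∈ AA S n) (h : S.H) : cc n q h ∈ GH S n :=
  mul_mem (mul_mem (rt_GH n hq) (dd_GH n h)) (inv_mem (rt_GH n hq))

theorem cc_o {n : ℕ} (q : Equiv.Perm (S.X n)) (h : S.H) {z : S.Bd} (hz : pre n z = ow n) (hq : z n = q (S.o n)) :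
    cc n q h z = S.dirPt (n+1) h z := by
  have e0 : q⁻¹ (z n) = S.o n := by rw [hq]; exact q.symm_apply_apply _
  rw [cc_eval q h hz, e0, dirPt_shift h (Function.update_self _ _ _)]
  funext i
  by_cases hi : i = n
  · subst hi
    rw [Function.update_self, dirPt_le _ _ (Nat.le_succ _)]
  · rw [Function.update_of_ne hi]
    by_cases hin : i < n + 1
    · rw [dirPt_le _ _ hin.le, dirPt_le _ _ hin.le, Function.update_of_ne hi]
    · exact dirPt_congr h (fun j hj _ => Function.update_of_ne (by omega) _ _) (by omega)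

theorem cc_t {n : ℕ} (q : Equiv.Perm (S.X n)) (h : S.H) {z : S.Bd} (hz : pre n z = ow n) (hq : z n = q (S.t n)) :
    cc n q h z = Function.update z (n+1) (S.ρ n h (z (n+1))) := by
  have e0 : q⁻¹ (z n) = S.t n := by rw [hq]; exact q.symm_apply_apply _
  rw [cc_eval q h hz, e0, dirPt_t h (Function.update_self _ _ _), Function.update_of_ne (by omega : n + 1 ≠ n)]
  rw [Function.update_comm (by omega : n ≠ n + 1), Function.update_idem, Function.update_comm (by omega : n + 1 ≠ n),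
    Function.update_eq_self]

theorem cc_other {n : ℕ} (q : Equiv.Perm (S.X n)) (h : S.H) {z : S.Bd} (ho : z n ≠ q (S.o n)) (ht : z n ≠ q (S.t n)) :
    cc n q h z = z := by
  by_cases hz : pre n z = ow n
  · have e1 : q⁻¹ (z n) ≠ S.o n := fun hc => ho (by rw [← hc]; exact (q.apply_symm_apply _).symm)
    have e2 : q⁻¹ (z n) ≠ S.t n := fun hc => ht (by rw [← hc]; exact (q.apply_symm_apply _).symm)
    rw [cc_eval q h hz, dirPt_trivial h (by rw [Function.update_self]; exact e1) (by rw [Function.update_self]; exact e2),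
      Function.update_idem, Function.update_eq_self]
  · exact (Loc_cc n q h).2 z hz

/-- the letter `n` is not changed -/
theorem cc_pre (n : ℕ) (q : Equiv.Perm (S.X n)) (h : S.H) (z : S.Bd) : pre (n+1) (cc n q h z) = pre (n+1) z := by
  by_cases hz : pre n z = ow n
  · by_cases h1 : z n = q (S.o n)
    · rw [cc_o q h hz h1, pre_dirPt]
    · by_cases h2 : z n = q (S.t n)
      · rw [cc_t q h hz h2, pre_update]
      · rw [cc_other q h h1 h2]
  · rw [(Loc_cc n q h).2 z hz]

theorem Agr_cc_o {n : ℕ} {q : Equiv.Perm (S.X n)} (h : S.H) (hq : q (S.o n) = S.o n) : Agr (n+1) (cc n q h) (dd (n+1) h) :=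
  fun z hz => by
    have hz' := pre_succ_iff.1 hz
    rw [cc_o q h hz'.1 (by rw [hq, hz'.2]), dd_pos h hz]

theorem Agr_cc_t {n : ℕ} {q : Equiv.Perm (S.X n)} (h : S.H) (hq : q (S.t n) = S.o n) :
    Agr (n+1) (cc n q h) (rt (n+1) (S.ρ n h)) :=
  fun z hz => by
    have hz' := pre_succ_iff.1 hz
    rw [cc_t q h hz'.1 (by rw [hq, hz'.2]), rt_pos _ hz]

/-- commutators which live at `o^m` only -/
theorem comm_loc (m : ℕ) (a c x y : Equiv.Perm S.Bd) (ha : ∀ z, pre m (a z) = pre m z) (hc : ∀ z, pre m (c z) = pre m z)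
    (hx : Loc m x) (hy : Loc m y) (hax : Agr m a x) (hcy : Agr m c y)
    (hac : ∀ z, pre m z ≠ ow m → (∀ w, pre m w = pre m z → a w = w) ∨ (∀ w, pre m w = pre m z → c w = w)) :
    ⁅a, c⁆ = ⁅x, y⁆ := by
  have hai := Agr_inv hax hx
  have hci := Agr_inv hcy hy
  have pai : ∀ z, pre m (a⁻¹ z) = pre m z := fun z => by rw [← ha, app_inv]
  have pci : ∀ z, pre m (c⁻¹ z) = pre m z := fun z => by rw [← hc, app_inv]
  rw [commutatorElement_def, commutatorElement_def]
  ext z : 1
  simp only [Equiv.Perm.mul_apply]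
  by_cases hz : pre m z = ow m
  · rw [hci z hz, hai _ (by rw [(Loc_inv hy).1, hz]), hcy _ (by rw [(Loc_inv hx).1, (Loc_inv hy).1, hz]),
      hax _ (by rw [hy.1, (Loc_inv hx).1, (Loc_inv hy).1, hz])]
  · rw [(Loc_inv hy).2 z hz, (Loc_inv hx).2 z hz, hy.2 z hz, hx.2 z hz]
    rcases hac z hz with h | h
    · have e1 : a⁻¹ (c⁻¹ z) = c⁻¹ z := by
        conv_lhs => rw [← h (c⁻¹ z) (pci z)]
        rw [inv_app]
      rw [e1, app_inv, h z rfl]
    · have e1 : c⁻¹ z = z := by
        conv_lhs => rw [← h z rfl]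
        rw [inv_app]
      rw [e1, h _ (pai z), app_inv]

/-! ### the main induction -/

section
variable (hA1 : ∀ n, ∃ a ∈ AA S n, a (S.o n) = S.o n ∧ a (S.t n) ≠ S.t n)
  (hA2 : ∀ n, ∃ a ∈ AA S n, a (S.t n) = S.o n ∧ a (S.o n) ≠ S.o n ∧ a (S.o n) ≠ S.t n)
  (hA3 : ∀ n, ∃ a ∈ AA S n, a (S.t n) = S.o n ∧ a (S.o n) = S.t n)

include hA3 in
/-- every element living at `o^n` is the restriction of an element of the group -/
theorem agree (n : ℕ) : ∀ x ∈ GH S n, ∃ g ∈ GG S, Agr n g x := by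
  induction n with
  | zero =>
    intro x hx
    rw [GH_zero] at hx
    exact ⟨x, hx, fun _ _ => rfl⟩
  | succ n ih =>
    intro x hx
    unfold GH at hx
    induction hx using Subgroup.closure_induction with
    | mem x hx =>
      rcases hx with ⟨h, rfl⟩ | ⟨a, ⟨h, rfl⟩, rfl⟩
      · exact ⟨dir 0 h, Subgroup.subset_closure (Or.inl ⟨h, rfl⟩), Agr_dir _ h⟩
      · obtain ⟨q, hq, hq1, _⟩ := hA3 n
        obtain ⟨g, hg, hg'⟩ := ih _ (rt_GH n hq)
        refine ⟨g * dir 0 h * g⁻¹, mul_mem (mul_mem hg (Subgroup.subset_closure (Or.inl ⟨h, rfl⟩))) (inv_mem hg), ?_⟩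
        have h1 : Agr n (g * dir 0 h * g⁻¹) (cc n q h) :=
          Agr_mul (Agr_mul hg' (Agr_dir n h) (Loc_dd n h)) (Agr_inv hg' (Loc_rt n q)) (Loc_inv (Loc_rt n q))
        exact Agr_trans (Agr_mono (Nat.le_succ n) h1) (Agr_cc_t h hq1)
    | one => exact ⟨1, one_mem _, fun _ _ => rfl⟩
    | mul a b ha hb iha ihb =>
      obtain ⟨g, hg, hg'⟩ := iha
      obtain ⟨g2, hg2, hg2'⟩ := ihb
      exact ⟨g * g2, mul_mem hg hg2, Agr_mul hg' hg2' (Loc_GH hb)⟩
    | inv a ha ih =>
      obtain ⟨g, hg, hg'⟩ := ih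
      exact ⟨g⁻¹, inv_mem hg, Agr_inv hg' (Loc_GH ha)⟩

theorem conj_eq {n : ℕ} {g x z : Equiv.Perm S.Bd} (h : Agr n g x) (hx : Loc n x) (hz : Loc n z) :
    x * z * x⁻¹ = g * z * g⁻¹ := by
  ext p : 1
  simp only [Equiv.Perm.mul_apply]
  by_cases hp : pre n p = ow n
  · rw [Agr_inv h hx p hp, h _ (by rw [hz.1, (Loc_inv hx).1, hp])]
  · rw [(Loc_inv hx).2 p hp, hz.2 p hp, hx.2 p hp, hz.2, app_inv]
    intro hc
    apply hp
    have := h _ hc
    rw [app_inv] at this
    rw [this, hx.1, hc]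

include hA1 hA2 hA3 in
/-- commutators of elements living at `o^n` are in the group -/
theorem comm_mem (n : ℕ) : ∀ x ∈ GH S n, ∀ y ∈ GH S n, ⁅x, y⁆ ∈ GG S := by
  induction n with
  | zero =>
    intro x hx y hy
    rw [GH_zero] at hx hy
    rw [commutatorElement_def]
    exact mul_mem (mul_mem (mul_mem hx hy) (inv_mem hx)) (inv_mem hy)
  | succ n ih =>
    -- normality
    have hnorm : ∀ x ∈ GH S (n+1), ∀ z, Loc (n+1) z → z ∈ GG S → x * z * x⁻¹ ∈ GG S := by
      intro x hx z hz hzG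
      obtain ⟨g, hg, hg'⟩ := agree hA3 (n+1) x hx
      rw [conj_eq hg' (Loc_GH hx) hz]
      exact mul_mem (mul_mem hg hzG) (inv_mem hg)
    -- separation of supports
    have hsep : ∀ (q1 q2 : Equiv.Perm (S.X n)) (h1 h2 : S.H),
        (∀ y, y ≠ S.o n → (y ≠ q1 (S.o n) ∧ y ≠ q1 (S.t n)) ∨ (y ≠ q2 (S.o n) ∧ y ≠ q2 (S.t n))) →
        ∀ z, pre (n+1) z ≠ ow (n+1) → (∀ w, pre (n+1) w = pre (n+1) z → cc n q1 h1 w = w) ∨
          (∀ w, pre (n+1) w = pre (n+1) z → cc n q2 h2 w = w) := by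
      intro q1 q2 h1 h2 hq z hz
      have hwn : ∀ w, pre (n+1) w = pre (n+1) z → w n = z n := fun w hw => congrFun hw ⟨n, by omega⟩
      by_cases hz0 : pre n z = ow n
      · have hzn : z n ≠ S.o n := fun hc => hz (pre_succ_iff.2 ⟨hz0, hc⟩)
        rcases hq _ hzn with h | h
        · left; intro w hw
          exact cc_other q1 h1 (by rw [hwn w hw]; exact h.1) (by rw [hwn w hw]; exact h.2)
        · right; intro w hw
          exact cc_other q2 h2 (by rw [hwn w hw]; exact h.1) (by rw [hwn w hw]; exact h.2)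
      · left; intro w hw
        refine (Loc_cc n q1 h1).2 w fun hc => hz0 ?_
        rw [← hc]; exact (pre_mono (Nat.le_succ n) hw).symm
    obtain ⟨a1, ha1, ha1o, ha1t⟩ := hA1 n
    obtain ⟨a2, ha2, ha2t, ha2o, ha2o'⟩ := hA2 n
    obtain ⟨a3, ha3, ha3t, ha3o⟩ := hA3 n
    have c11 : ∀ h1 h2 : S.H, ⁅dd (n+1) h1, dd (n+1) h2⁆ ∈ GG S := by
      intro h1 h2
      rw [← comm_loc (n+1) (cc n 1 h1) (cc n a1 h2) _ _ (cc_pre n _ _) (cc_pre n _ _) (Loc_dd _ _) (Loc_dd _ _)
        (Agr_cc_o h1 rfl) (Agr_cc_o h2 ha1o)]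
      · exact ih _ (cc_GH n (one_mem _) h1) _ (cc_GH n ha1 h2)
      · refine hsep 1 a1 h1 h2 fun y hy => ?_
        simp only [Equiv.Perm.one_apply]
        by_cases hyt : y = S.t n
        · right
          subst hyt
          exact ⟨by rw [ha1o]; exact hy, Ne.symm ha1t⟩
        · exact Or.inl ⟨hy, hyt⟩
    have c12 : ∀ h1 h2 : S.H, ⁅dd (n+1) h1, rt (n+1) (S.ρ n h2)⁆ ∈ GG S := by
      intro h1 h2
      rw [← comm_loc (n+1) (cc n 1 h1) (cc n a2 h2) _ _ (cc_pre n _ _) (cc_pre n _ _) (Loc_dd _ _) (Loc_rt _ _)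
        (Agr_cc_o h1 rfl) (Agr_cc_t h2 ha2t)]
      · exact ih _ (cc_GH n (one_mem _) h1) _ (cc_GH n ha2 h2)
      · refine hsep 1 a2 h1 h2 fun y hy => ?_
        simp only [Equiv.Perm.one_apply]
        by_cases hyt : y = S.t n
        · right
          subst hyt
          exact ⟨Ne.symm ha2o', by rw [ha2t]; exact hy⟩
        · exact Or.inl ⟨hy, hyt⟩
    have c22 : ∀ h1 h2 : S.H, ⁅rt (n+1) (S.ρ n h1), rt (n+1) (S.ρ n h2)⁆ ∈ GG S := by
      intro h1 h2
      rw [← comm_loc (n+1) (cc n a3 h1) (cc n a2 h2) _ _ (cc_pre n _ _) (cc_pre n _ _) (Loc_rt _ _) (Loc_rt _ _)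
        (Agr_cc_t h1 ha3t) (Agr_cc_t h2 ha2t)]
      · exact ih _ (cc_GH n ha3 h1) _ (cc_GH n ha2 h2)
      · refine hsep a3 a2 h1 h2 fun y hy => ?_
        by_cases hyt : y = S.t n
        · right
          subst hyt
          exact ⟨Ne.symm ha2o', by rw [ha2t]; exact hy⟩
        · left
          exact ⟨by rw [ha3o]; exact hyt, by rw [ha3t]; exact hy⟩
    have c21 : ∀ h1 h2 : S.H, ⁅rt (n+1) (S.ρ n h1), dd (n+1) h2⁆ ∈ GG S := by
      intro h1 h2
      rw [← commutatorElement_inv]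
      exact inv_mem (c12 h2 h1)
    -- generators
    have cgen : ∀ x ∈ Set.range (dd (S := S) (n+1)) ∪ rt (n+1) '' (AA S (n+1) : Set (Equiv.Perm (S.X (n+1)))),
        ∀ y ∈ Set.range (dd (S := S) (n+1)) ∪ rt (n+1) '' (AA S (n+1) : Set (Equiv.Perm (S.X (n+1)))), ⁅x, y⁆ ∈ GG S := by
      rintro _ (⟨h1, rfl⟩ | ⟨_, ⟨h1, rfl⟩, rfl⟩) _ (⟨h2, rfl⟩ | ⟨_, ⟨h2, rfl⟩, rfl⟩)
      · exact c11 h1 h2
      · exact c12 h1 h2
      · exact c21 h1 h2
      · exact c22 h1 h2
    have hLc : ∀ {x y : Equiv.Perm S.Bd}, Loc (n+1) x → Loc (n+1) y → Loc (n+1) ⁅x, y⁆ := by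
      intro x y hx hy
      rw [commutatorElement_def]
      exact Loc_mul (Loc_mul (Loc_mul hx hy) (Loc_inv hx)) (Loc_inv hy)
    -- first variable
    have step1 : ∀ y ∈ GH S (n+1), (∀ x ∈ Set.range (dd (S := S) (n+1)) ∪ rt (n+1) '' (AA S (n+1) : Set (Equiv.Perm (S.X (n+1)))),
        ⁅x, y⁆ ∈ GG S) → ∀ x ∈ GH S (n+1), ⁅x, y⁆ ∈ GG S := by
      intro y hy hgen x hx
      have hxx := hx
      unfold GH at hx
      induction hx using Subgroup.closure_induction with
      | mem x hx => exact hgen x hx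
      | one => rw [commutatorElement_one_left]; exact one_mem _
      | mul a b ha hb iha ihb =>
        have e : ⁅a * b, y⁆ = (a * ⁅b, y⁆ * a⁻¹) * ⁅a, y⁆ := by
          simp only [commutatorElement_def]; group
        rw [e]
        exact mul_mem (hnorm a ha _ (hLc (Loc_GH hb) (Loc_GH hy)) (ihb hb)) (iha ha)
      | inv a ha ih =>
        have e : ⁅a⁻¹, y⁆ = a⁻¹ * ⁅a, y⁆⁻¹ * (a⁻¹)⁻¹ := by
          simp only [commutatorElement_def]; group
        rw [e]
        exact hnorm a⁻¹ (inv_mem ha) _ (Loc_inv (hLc (Loc_GH ha) (Loc_GH hy))) (inv_mem (ih ha))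
    intro x hx y hy
    refine step1 y hy (fun x hx => ?_) x hx
    have hx' : x ∈ GH S (n+1) := Subgroup.subset_closure hx
    rw [← commutatorElement_inv]
    refine inv_mem ?_
    exact step1 x hx' (fun y hy => cgen y hy x hx) y hy

end

end Pool.Agent.Helper889.Nb
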