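import Mathlib
import Pool.Agent.Helper889.Nb.Loc

set_option autoImplicit false
set_option linter.unusedSectionVars false
set_option linter.unusedVariables false

namespace Pool.Agent.Helper889.Nb

open Pool.Agent.Helper889.Br
open scoped commutatorElement

variable {S : Sys}

/-- one-step sections -/
def Q1 (n : ℕ) (x : Equiv.Perm S.Bd) : Prop := ∀ y : S.X n, ∃ y', ∃ γ ∈ GH S (n+1), ∀ z, pre (n+1) z = ow (n+1) →
  x (Function.update z n y) = Function.update (γ z) n y'

theorem Q1_dd (n : ℕ) (h : S.H) : Q1 n (dd n h) := by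
  intro y
  have hpre : ∀ z : S.Bd, pre (n+1) z = ow (n+1) → pre n (Function.update z n y) = ow n := fun z hz => by
    rw [pre_update]; exact (pre_succ_iff.1 hz).1
  by_cases h1 : y = S.o n
  · subst h1
    refine ⟨S.o n, dd (n+1) h, dd_GH _ h, fun z hz => ?_⟩
    have hz' := pre_succ_iff.1 hz
    have e : Function.update z n (S.o n) = z := by rw [← hz'.2, Function.update_eq_self]
    rw [e, dd_pos h hz'.1, dd_pos h hz, dirPt_shift h hz'.2]
    have e2 : S.dirPt (n+1) h z n = S.o n := by rw [dirPt_le _ _ (Nat.le_succ n), hz'.2]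
    rw [← e2, Function.update_eq_self]
  · by_cases h2 : y = S.t n
    · subst h2
      refine ⟨S.t n, rt (n+1) (S.ρ n h), rt_GH _ ⟨h, rfl⟩, fun z hz => ?_⟩
      rw [dd_pos h (hpre z hz), dirPt_t h (Function.update_self _ _ _), rt_pos _ hz, Function.update_of_ne (by omega),
        Function.update_comm (by omega : n ≠ n + 1)]
    · refine ⟨y, 1, one_mem _, fun z hz => ?_⟩
      rw [dd_pos h (hpre z hz), dirPt_trivial h (by rw [Function.update_self]; exact h1) (by rw [Function.update_self]; exact h2)]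
      rfl

theorem Q1_rt (n : ℕ) (a : Equiv.Perm (S.X n)) : Q1 n (rt n a) := by
  intro y
  refine ⟨a y, 1, one_mem _, fun z hz => ?_⟩
  rw [rt_pos _ (by rw [pre_update]; exact (pre_succ_iff.1 hz).1), Function.update_self, Function.update_idem]
  rfl

theorem Q1_mul {n : ℕ} {a b : Equiv.Perm S.Bd} (ha : Q1 n a) (hb : Q1 n b) : Q1 n (a * b) := by
  intro y
  obtain ⟨y', γ, hγ, h1⟩ := hb y
  obtain ⟨y'', γ', hγ', h2⟩ := ha y'
  refine ⟨y'', γ' * γ, mul_mem hγ' hγ, fun z hz => ?_⟩
  rw [Equiv.Perm.mul_apply, h1 z hz, h2 _ (by rw [(Loc_GH hγ).1, hz])]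
  rfl

theorem Q1_one {n : ℕ} : Q1 n (1 : Equiv.Perm S.Bd) := fun y => ⟨y, 1, one_mem _, fun _ _ => rfl⟩

theorem Q1_GH {n : ℕ} {x : Equiv.Perm S.Bd} (hx : x ∈ GH S n) : Q1 n x ∧ Q1 n x⁻¹ := by
  unfold GH at hx
  induction hx using Subgroup.closure_induction with
  | mem g hg =>
    rcases hg with ⟨h, rfl⟩ | ⟨a, _, rfl⟩
    · exact ⟨Q1_dd n h, by rw [← map_inv]; exact Q1_dd n _⟩
    · exact ⟨Q1_rt n a, by rw [← map_inv]; exact Q1_rt n _⟩
  | one => rw [inv_one]; exact ⟨Q1_one, Q1_one⟩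
  | mul a b _ _ iha ihb => rw [mul_inv_rev]; exact ⟨Q1_mul iha.1 ihb.1, Q1_mul ihb.2 iha.2⟩
  | inv a _ ih => rw [inv_inv]; exact ih.symm

theorem pre_oo (n : ℕ) : pre n (oo (S := S)) = ow n := rfl

theorem sect (n : ℕ) : ∀ g ∈ GG S, (∀ z : S.Bd, pre n z = ow n → pre n (g z) = ow n) → ∃ γ ∈ GH S n, Agr n g γ := by
  induction n with
  | zero => exact fun g hg _ => ⟨g, by rw [GH_zero]; exact hg, fun _ _ => rfl⟩
  | succ n ih =>
    intro g hg hpres
    have h0 := hpres oo (pre_oo _)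
    have h1 : ∀ z : S.Bd, pre n z = ow n → pre n (g z) = ow n := by
      intro z hz
      have h2 : pre n (g z) = pre n (g oo) := by
        rw [pre_eq_iff, ← TA_GG hg, ← pre_eq_iff, hz]; rfl
      rw [h2]
      exact (pre_succ_iff.1 h0).1
    obtain ⟨γ, hγ, hag⟩ := ih g hg h1
    obtain ⟨y', γ', hγ', h3⟩ := (Q1_GH hγ).1 (S.o n)
    have h4 : ∀ z, pre (n+1) z = ow (n+1) → g z = Function.update (γ' z) n y' := by
      intro z hz
      have hz' := pre_succ_iff.1 hz
      have e : Function.update z n (S.o n) = z := by rw [← hz'.2, Function.update_eq_self]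
      rw [hag z hz'.1, ← h3 z hz, e]
    have hy : y' = S.o n := by
      have := (pre_succ_iff.1 h0).2
      rwa [h4 oo (pre_oo _), Function.update_self] at this
    refine ⟨γ', hγ', fun z hz => ?_⟩
    rw [h4 z hz, hy]
    have : (γ' z) n = S.o n := (pre_succ_iff.1 (by rw [(Loc_GH hγ').1, hz])).2
    rw [← this, Function.update_eq_self]

/-- action on a level -/
noncomputable def lvl (n : ℕ) : GG S →* Equiv.Perm (S.V n) where
  toFun := fun g => ind n g (TA_GG g.2)
  map_one' := by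
    ext1 v
    exact pre_up n v
  map_mul' := fun g h => by
    ext1 v
    show pre n ((g : Equiv.Perm S.Bd) ((h : Equiv.Perm S.Bd) (up n v)))
      = ind n g (TA_GG g.2) (pre n ((h : Equiv.Perm S.Bd) (up n v)))
    exact pre_apply n (TA_GG g.2) _

theorem lvl_ker {n : ℕ} {g : GG S} : g ∈ (lvl n).ker ↔ ∀ z, pre n ((g : Equiv.Perm S.Bd) z) = pre n z := by
  rw [MonoidHom.mem_ker]
  constructor
  · intro h z
    have h2 : lvl n g (pre n z) = pre n z := by rw [h]; rfl
    rw [pre_apply n (TA_GG g.2)]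
    exact h2
  · intro h
    ext1 v
    show pre n ((g : Equiv.Perm S.Bd) (up n v)) = v
    rw [h, pre_up]

theorem Agr_unique {n : ℕ} {g x y : Equiv.Perm S.Bd} (hx : Loc n x) (hy : Loc n y) (h1 : Agr n g x) (h2 : Agr n g y) : x = y := by
  ext z : 1
  by_cases hz : pre n z = ow n
  · rw [← h1 z hz, h2 z hz]
  · rw [hx.2 z hz, hy.2 z hz]

theorem res_exists (n : ℕ) (g : (lvl (S := S) n).ker) : ∃ γ : GH S n, Agr n ((g : GG S) : Equiv.Perm S.Bd) γ := by
  obtain ⟨γ, h1, h2⟩ := sect n _ (g : GG S).2 (fun z hz => by rw [lvl_ker.1 g.2, hz])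
  exact ⟨⟨γ, h1⟩, h2⟩

/-- restriction to `o^n` -/
noncomputable def res (n : ℕ) : (lvl (S := S) n).ker →* GH S n where
  toFun := fun g => (res_exists n g).choose
  map_one' := by
    apply Subtype.ext
    exact Agr_unique (Loc_GH (res_exists n 1).choose.2) (Loc_GH (1 : GH S n).2) (res_exists n 1).choose_spec (fun _ _ => rfl)
  map_mul' := fun g h => by
    apply Subtype.ext
    exact Agr_unique (Loc_GH (res_exists n (g * h)).choose.2) (Loc_GH ((res_exists n g).choose * (res_exists n h).choose).2)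
      (res_exists n (g * h)).choose_spec
      (Agr_mul (res_exists n g).choose_spec (res_exists n h).choose_spec (Loc_GH (res_exists n h).choose.2))

theorem res_spec (n : ℕ) (g : (lvl (S := S) n).ker) : Agr n ((g : GG S) : Equiv.Perm S.Bd) (res n g) :=
  (res_exists n g).choose_spec

/-- finiteness of the abelianisation -/
theorem fin_ab (n : ℕ) [Finite (Abelianization S.H)] : Finite (Abelianization (GH S n)) := by
  let f1 : S.H →* GH S n := (dd n).codRestrict (GH S n) (dd_GH n)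
  let f2 : AA S n →* GH S n := ((rt n).comp (AA S n).subtype).codRestrict (GH S n) (fun a => rt_GH n a.2)
  let Φ : Abelianization S.H × AA S n →* Abelianization (GH S n) :=
    MonoidHom.coprod (Abelianization.lift (Abelianization.of.comp f1)) (Abelianization.of.comp f2)
  have hAA : Finite (AA S n) := inferInstance
  refine Finite.of_surjective Φ ?_
  set K : Subgroup (GH S n) := Φ.range.comap Abelianization.of with hK
  have h2 : GH S n ≤ K.map (Subgroup.subtype _) := by
    conv_lhs => unfold GH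
    rw [Subgroup.closure_le]
    rintro _ (⟨h, rfl⟩ | ⟨a, ha, rfl⟩)
    · refine ⟨f1 h, ⟨(Abelianization.of h, 1), ?_⟩, rfl⟩
      show Φ (Abelianization.of h, 1) = Abelianization.of (f1 h)
      simp only [Φ, MonoidHom.coprod_apply, map_one, mul_one, Abelianization.lift_apply_of]
      rfl
    · refine ⟨f2 ⟨a, ha⟩, ⟨(1, ⟨a, ha⟩), ?_⟩, rfl⟩
      show Φ (1, ⟨a, ha⟩) = Abelianization.of (f2 ⟨a, ha⟩)
      simp only [Φ, MonoidHom.coprod_apply, map_one, one_mul]
      rfl
  intro y
  obtain ⟨x, rfl⟩ := QuotientGroup.mk_surjective y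
  obtain ⟨x', hx', hxx⟩ := h2 x.2
  have : x' = x := Subtype.ext hxx
  rw [this] at hx'
  exact hx'

/-- rigid stabilisers have finite index -/
theorem rist_index [Finite (Abelianization S.H)] (htr : ∀ k (x : S.X (k+1)), ∃ h, S.ρ k h x = S.o (k+1))
    (hA1 : ∀ n, ∃ a ∈ AA S n, a (S.o n) = S.o n ∧ a (S.t n) ≠ S.t n)
    (hA2 : ∀ n, ∃ a ∈ AA S n, a (S.t n) = S.o n ∧ a (S.o n) ≠ S.o n ∧ a (S.o n) ≠ S.t n)
    (hA3 : ∀ n, ∃ a ∈ AA S n, a (S.t n) = S.o n ∧ a (S.o n) = S.t n) (n : ℕ) :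
    ∃ Z : Subgroup (GG S), Z.FiniteIndex ∧ ∀ g ∈ Z, (g : Equiv.Perm S.Bd) ∈ Subgroup.closure
      {g : Equiv.Perm S.Bd | g ∈ GG S ∧ ∃ v : S.V n, ∀ z, pre n z ≠ v → g z = z} := by
  have := fin_ab (S := S) n
  have hfq : Finite (GH S n ⧸ commutator (GH S n)) := this
  have hc1 : (commutator (GH S n)).FiniteIndex := Subgroup.finiteIndex_of_finite_quotient
  have hc2 : ((commutator (GH S n)).comap (res (S := S) n)).FiniteIndex := ⟨by
    rw [Subgroup.index_comap]
    have h : ((commutator (GH S n)).subgroupOf (res (S := S) n).range).FiniteIndex := inferInstance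
    exact h.index_ne_zero⟩
  have hc3 : (lvl (S := S) n).ker.FiniteIndex := Subgroup.finiteIndex_ker _
  set Z0 : Subgroup (GG S) := ((commutator (GH S n)).comap (res (S := S) n)).map (Subgroup.subtype _) with hZ0
  have hc4 : Z0.FiniteIndex := by
    constructor
    rw [hZ0, Subgroup.index_map_subtype]
    exact mul_ne_zero hc2.index_ne_zero hc3.index_ne_zero
  refine ⟨Z0.normalCore, inferInstance, fun g hg => ?_⟩
  set R : Set (Equiv.Perm S.Bd) := {g : Equiv.Perm S.Bd | g ∈ GG S ∧ ∃ v : S.V n, ∀ z, pre n z ≠ v → g z = z} with hR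
  -- the commutator subgroup is contained in the group
  have hcomm : ∀ x ∈ commutator (GH S n), (x : Equiv.Perm S.Bd) ∈ GG S := by
    have : commutator (GH S n) ≤ (GG S).comap (GH S n).subtype := by
      rw [commutator_def, Subgroup.commutator_le]
      intro a _ b _
      exact comm_mem hA1 hA2 hA3 n a a.2 b b.2
    exact this
  have hgen : ∀ c : GG S, ∃ γ ∈ GG S, Loc n γ ∧ Agr n (c * g * c⁻¹ : Equiv.Perm S.Bd) γ := by
    intro c
    have h1 : c * g * c⁻¹ ∈ Z0 := hg c
    obtain ⟨y, hy, hyc⟩ := h1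
    refine ⟨res n y, hcomm _ hy, Loc_GH (res n y).2, ?_⟩
    have h2 := res_spec n y
    have e : ((y : GG S) : Equiv.Perm S.Bd) = c * g * c⁻¹ := by
      have := congrArg (fun w : GG S => (w : Equiv.Perm S.Bd)) hyc
      exact this
    rw [e] at h2
    exact h2
  have hgpre : ∀ z, pre n ((g : Equiv.Perm S.Bd) z) = pre n z := by
    have h1 : g ∈ Z0 := Subgroup.normalCore_le _ hg
    obtain ⟨y, _, hyc⟩ := h1
    have : g ∈ (lvl n).ker := by rw [← hyc]; exact y.2
    exact lvl_ker.1 this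
  have hr : ∀ v : S.V n, ∃ r ∈ R, (∀ z, pre n z = v → r z = (g : Equiv.Perm S.Bd) z) ∧ ∀ z, pre n z ≠ v → r z = z := by
    intro v
    obtain ⟨c, hc, hcv⟩ := trans_GG htr n (up n v)
    obtain ⟨γ, hγ, hL, hag⟩ := hgen ⟨c, hc⟩
    have hcc : ∀ z, pre n z = v ↔ pre n (c z) = ow n := by
      intro z
      rw [← hcv, pre_eq_iff (x := c z), ← TA_GG hc, ← pre_eq_iff, pre_up]
    have ho : ∀ z, pre n z ≠ v → (c⁻¹ * γ * c) z = z := by
      intro z hz
      rw [Equiv.Perm.mul_apply, Equiv.Perm.mul_apply, hL.2 _ (fun h => hz ((hcc z).2 h)), inv_app]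
    refine ⟨c⁻¹ * γ * c, ⟨mul_mem (mul_mem (inv_mem hc) hγ) hc, v, ho⟩, fun z hz => ?_, ho⟩
    rw [Equiv.Perm.mul_apply, Equiv.Perm.mul_apply, ← hag _ ((hcc z).1 hz)]
    show c⁻¹ ((c * (g : Equiv.Perm S.Bd) * c⁻¹) (c z)) = _
    rw [Equiv.Perm.mul_apply, Equiv.Perm.mul_apply, inv_app, inv_app]
  choose r hrR hr1 hr2 using hr
  classical
  have key : ∀ s : Finset (S.V n), ∃ p ∈ Subgroup.closure R, ∀ z, p z = if pre n z ∈ s then (g : Equiv.Perm S.Bd) z else z := by
    intro s
    induction s using Finset.induction_on with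
    | empty => exact ⟨1, one_mem _, fun z => by simp⟩
    | insert v s hv ih =>
      obtain ⟨p, hp, hp'⟩ := ih
      refine ⟨r v * p, mul_mem (Subgroup.subset_closure (hrR v)) hp, fun z => ?_⟩
      rw [Equiv.Perm.mul_apply, hp']
      by_cases hz : pre n z ∈ s
      · rw [if_pos hz, if_pos (Finset.mem_insert_of_mem hz), hr2]
        rw [hgpre]
        rintro rfl
        exact hv hz
      · rw [if_neg hz]
        by_cases hzv : pre n z = v
        · rw [if_pos (by rw [hzv]; exact Finset.mem_insert_self _ _), hr1 v z hzv]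
        · rw [if_neg, hr2 v z hzv]
          rw [Finset.mem_insert, not_or]
          exact ⟨hzv, hz⟩
  obtain ⟨p, hp, hp'⟩ := key Finset.univ
  have : p = g := by
    ext z : 1
    rw [hp', if_pos (Finset.mem_univ _)]
  rw [← this]
  exact hp

end Pool.Agent.Helper889.Nb
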