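import Mathlib
import Pool.Agent.Helper889.Br.Branch

set_option autoImplicit false
set_option linter.unusedSectionVars false
set_option linter.unusedVariables false

namespace Pool.Agent.Helper889.Nb

open Pool.Agent.Helper889.Br

variable {S : Sys}

/-- not cofinal with the base point -/
def NC (x : S.Bd) : Prop := ∀ n, ∃ k, n ≤ k ∧ x k ≠ S.o k

/-- locally finitary at `x` -/
def LF (g : Equiv.Perm S.Bd) (x : S.Bd) : Prop := ∃ n, ∀ z : S.Bd, (∀ i < n, z i = x i) → ∀ i, n ≤ i → g z i = z i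

theorem LF_NC {g : Equiv.Perm S.Bd} {x : S.Bd} (h : LF g x) (hx : NC x) : NC (g x) := by
  obtain ⟨n, hn⟩ := h
  intro m
  obtain ⟨k, hk, hk'⟩ := hx (max n m)
  refine ⟨k, (le_max_right n m).trans hk, ?_⟩
  rw [hn x (fun _ _ => rfl) k ((le_max_left n m).trans hk)]
  exact hk'

theorem LF_mul {a b : Equiv.Perm S.Bd} {x : S.Bd} (hb : LF b x) (ha : LF a (b x)) (hbT : TA b) : LF (a * b) x := by
  obtain ⟨n, hn⟩ := hb
  obtain ⟨m, hm⟩ := ha
  refine ⟨max n m, fun z hz i hi => ?_⟩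
  rw [Equiv.Perm.mul_apply, hm (b z) ?_ i ((le_max_right n m).trans hi)]
  · exact hn z (fun i hi => hz i (lt_of_lt_of_le hi (le_max_left _ _))) i ((le_max_left n m).trans hi)
  · exact (hbT z x m).1 (fun i hi => hz i (lt_of_lt_of_le hi (le_max_right _ _)))

theorem LF_dir (h : S.H) {x : S.Bd} (hx : NC x) : LF (dir 0 h) x := by
  obtain ⟨K, _, hK⟩ := hx 0
  refine ⟨K + 2, fun z hz i hi => ?_⟩
  obtain ⟨j, rfl⟩ : ∃ j, i = j + 1 := ⟨i - 1, by omega⟩
  rw [dir_apply]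
  refine dirPt_succ_neg h fun hs => hK ?_
  rw [← hz K (by omega)]
  exact hs.2.2 K (Nat.zero_le _) (by omega)

theorem LF_root (a : Equiv.Perm (S.X 0)) (x : S.Bd) : LF (root a) x := by
  refine ⟨1, fun z hz i hi => ?_⟩
  obtain ⟨j, rfl⟩ : ∃ j, i = j + 1 := ⟨i - 1, by omega⟩
  rfl

theorem LF_GG {g : Equiv.Perm S.Bd} (hg : g ∈ GG S) : ∀ x : S.Bd, NC x → LF g x ∧ LF g⁻¹ x := by
  unfold GG at hg
  induction hg using Subgroup.closure_induction with
  | mem g hg =>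
    intro x hx
    rcases hg with ⟨h, rfl⟩ | ⟨a, rfl⟩
    · exact ⟨LF_dir h hx, by rw [← map_inv]; exact LF_dir _ hx⟩
    · exact ⟨LF_root a x, by rw [← map_inv]; exact LF_root _ x⟩
  | one => intro x _; rw [inv_one]; exact ⟨⟨0, fun _ _ _ _ => rfl⟩, ⟨0, fun _ _ _ _ => rfl⟩⟩
  | mul a b ha hb iha ihb =>
    intro x hx
    have h1 := (ihb x hx).1
    have h2 := (iha x hx).2
    refine ⟨LF_mul h1 (iha _ (LF_NC h1 hx)).1 (TA_GG hb), ?_⟩
    rw [mul_inv_rev]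
    exact LF_mul h2 (ihb _ (LF_NC h2 hx)).2 (TA_inv (TA_GG ha))
  | inv a _ ih =>
    intro x hx
    rw [inv_inv]
    exact (ih x hx).symm

theorem Germ_pow {g : Equiv.Perm S.Bd} {x : S.Bd} {h : S.H} {n : ℕ} (hg : GermAt g x h n) (hx : g x = x) (N : ℕ) :
    GermAt (g ^ N) x (h ^ N) n ∧ (g ^ N) x = x := by
  induction N with
  | zero =>
    rw [pow_zero, pow_zero]
    exact ⟨Germ_one hg.1, rfl⟩
  | succ N ih =>
    obtain ⟨h1, h2⟩ := ih
    rw [pow_succ', pow_succ']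
    refine ⟨?_, by rw [Equiv.Perm.mul_apply, h2, hx]⟩
    have := Germ_mul h1 (g' := g) (h' := h) (n' := n) (by rw [h2]; exact hg)
    rwa [max_self] at this

/-- germs are torsion -/
theorem torsion_germ (hT : ∀ h : S.H, ∃ N, 0 < N ∧ h ^ N = 1) {g : Equiv.Perm S.Bd} (hg : g ∈ GG S) {x : S.Bd}
    (hx : g x = x) : ∃ N, 0 < N ∧ ∃ n, ∀ z : S.Bd, pre n z = pre n x → (g ^ N) z = z := by
  by_cases hc : NC x
  · obtain ⟨n, hn⟩ := (LF_GG hg x hc).1
    refine ⟨1, one_pos, n, fun z hz => ?_⟩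
    rw [pow_one]
    have hz' := pre_eq_iff.1 hz
    funext i
    by_cases hi : i < n
    · have := (TA_GG hg z x n).1 hz' i hi
      rw [this, hx, hz' i hi]
    · exact hn z hz' i (by omega)
  · unfold NC at hc
    push Not at hc
    obtain ⟨n0, hn0⟩ := hc
    obtain ⟨h, n, hgerm⟩ := Germ_exists hg x ⟨n0, hn0⟩
    obtain ⟨N, hN, hN1⟩ := hT h
    obtain ⟨h1, h2⟩ := Germ_pow hgerm hx N
    refine ⟨N, hN, n, fun z hz => ?_⟩
    have hz' := pre_eq_iff.1 hz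
    rw [h1.2.2 z hz']
    funext i
    by_cases hi : i < n
    · rw [if_pos hi, h2, hz' i hi]
    · rw [if_neg hi, hN1, dirPt_one]

end Pool.Agent.Helper889.Nb
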