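import Mathlib
import Pool.Agent.Helper889.Nb.Growth
import Pool.Agent.Helper889.Nb.TGerm
import Pool.Agent.Helper889.Nb.Index

set_option autoImplicit false
set_option linter.unusedSectionVars false
set_option linter.unusedVariables false

namespace Pool.Agent.Helper889.Nb

open Pool.Agent.Helper889.Br

universe u

/-- Commuting elements of a free group are powers of a common element
(proof copied from helper189's file DerFree). -/
theorem exists_root {G : Type u} [Group G] [IsFreeGroup G] {b c : G} (h : Commute b c) :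
    ∃ r : G, ∃ i j : ℤ, b = r ^ i ∧ c = r ^ j := by
  let H : Subgroup G := Subgroup.closure {b, c}
  have hb : b ∈ H := Subgroup.subset_closure (by simp)
  have hc : c ∈ H := Subgroup.subset_closure (by simp)
  have hcomm : ∀ x ∈ ({b, c} : Set G), ∀ y ∈ ({b, c} : Set G), x * y = y * x := by
    rintro x (rfl | rfl) y (rfl | rfl)
    · rfl
    · exact h
    · exact h.symm
    · rfl
  have hH : ∀ x y : H, x * y = y * x := by
    intro x y
    have := (Subgroup.isMulCommutative_closure hcomm).is_comm.comm x y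
    exact this
  let Y := IsFreeGroup.Generators H
  let e : H ≃* FreeGroup Y := IsFreeGroup.toFreeGroup H
  have hsub : Subsingleton Y := by
    constructor
    intro x y
    by_contra hxy
    have h1 : (FreeGroup.of x : FreeGroup Y) * FreeGroup.of y
        = FreeGroup.of y * FreeGroup.of x := by
      apply e.symm.injective
      rw [map_mul, map_mul, hH]
    classical
    have h2 := congrArg FreeGroup.toWord h1
    simp only [FreeGroup.toWord_mul, FreeGroup.toWord_of] at h2
    have h3 : FreeGroup.reduce ([(x, true)] ++ [(y, true)]) = [(x, true), (y, true)] := by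
      simp [FreeGroup.reduce, hxy]
    have h4 : FreeGroup.reduce ([(y, true)] ++ [(x, true)]) = [(y, true), (x, true)] := by
      simp [FreeGroup.reduce]
    rw [h3, h4] at h2
    simp at h2
    exact hxy h2.1
  have hcyc : ∃ r : FreeGroup Y, ∀ z : FreeGroup Y, ∃ i : ℤ, z = r ^ i := by
    rcases isEmpty_or_nonempty Y with hY | ⟨⟨y⟩⟩
    · exact ⟨1, fun z => ⟨0, Subsingleton.elim _ _⟩⟩
    · refine ⟨FreeGroup.of y, fun z => ?_⟩
      have hz : z ∈ Subgroup.closure (Set.range (FreeGroup.of : Y → FreeGroup Y)) := by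
        rw [FreeGroup.closure_range_of]; trivial
      have hr : Set.range (FreeGroup.of : Y → FreeGroup Y) = {FreeGroup.of y} := by
        ext w
        constructor
        · rintro ⟨y', rfl⟩
          rw [Subsingleton.elim y' y]; rfl
        · rintro rfl
          exact ⟨y, rfl⟩
      rw [hr] at hz
      obtain ⟨i, hi⟩ := Subgroup.mem_closure_singleton.mp hz
      exact ⟨i, hi.symm⟩
  obtain ⟨r, hr⟩ := hcyc
  obtain ⟨i, hi⟩ := hr (e ⟨b, hb⟩)
  obtain ⟨j, hj⟩ := hr (e ⟨c, hc⟩)
  refine ⟨((e.symm r : H) : G), i, j, ?_, ?_⟩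
  · have : (⟨b, hb⟩ : H) = (e.symm r) ^ i := by
      apply e.injective; rw [hi, map_zpow, MulEquiv.apply_symm_apply]
    have h2 := congrArg (Subtype.val) this
    simpa using h2
  · have : (⟨c, hc⟩ : H) = (e.symm r) ^ j := by
      apply e.injective; rw [hj, map_zpow, MulEquiv.apply_symm_apply]
    have h2 := congrArg (Subtype.val) this
    simpa using h2

/-- the reduced word of a positive word -/
def pw (l : List Bool) : List (Fin 2 × Bool) := l.map fun c => (if c then (0 : Fin 2) else 1, true)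

theorem wd_mk (l : List Bool) : wd (FreeGroup.of (0 : Fin 2)) (FreeGroup.of 1) l = FreeGroup.mk (pw l) := by
  induction l with
  | nil => rfl
  | cons c l ih =>
    have e : wd (FreeGroup.of (0 : Fin 2)) (FreeGroup.of 1) (c :: l)
        = (if c then FreeGroup.of 0 else FreeGroup.of 1) * wd (FreeGroup.of (0 : Fin 2)) (FreeGroup.of 1) l := by
      simp only [wd, List.map_cons, List.prod_cons]
    rw [e, ih]
    cases c
    · show FreeGroup.mk [((1 : Fin 2), true)] * FreeGroup.mk (pw l) = _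
      rw [FreeGroup.mul_mk]; rfl
    · show FreeGroup.mk [((0 : Fin 2), true)] * FreeGroup.mk (pw l) = _
      rw [FreeGroup.mul_mk]; rfl

theorem pw_reduced (l : List Bool) : FreeGroup.IsReduced (pw l) := by
  induction l with
  | nil => exact FreeGroup.IsReduced.nil
  | cons c l ih =>
    cases l with
    | nil => exact FreeGroup.IsReduced.singleton
    | cons c' l =>
      show FreeGroup.IsReduced (_ :: _ :: _)
      rw [FreeGroup.isReduced_cons_cons]
      exact ⟨fun _ => rfl, ih⟩

theorem wd_inj {l l' : List Bool} (h : wd (FreeGroup.of (0 : Fin 2)) (FreeGroup.of 1) l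
    = wd (FreeGroup.of (0 : Fin 2)) (FreeGroup.of 1) l') : l = l' := by
  rw [wd_mk, wd_mk] at h
  have h2 := congrArg FreeGroup.toWord h
  rw [FreeGroup.toWord_mk, FreeGroup.toWord_mk, (pw_reduced l).reduce_eq, (pw_reduced l').reduce_eq] at h2
  refine List.map_injective_iff.2 ?_ h2
  intro c c' hc
  cases c <;> cases c' <;> simp_all

theorem map_wd {G H : Type} [Group G] [Group H] (f : G →* H) (a b : G) (l : List Bool) : f (wd a b l) = wd (f a) (f b) l := by
  unfold wd
  rw [map_list_prod, List.map_map]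
  congr 1
  refine List.map_congr_left fun c _ => ?_
  cases c <;> rfl

variable {S : Sys}

/-- elements preserving the level `n` and fixing the cylinders in `s` -/
def FixS (n : ℕ) (s : Set (S.V n)) : Subgroup (Equiv.Perm S.Bd) where
  carrier := {g | (∀ z, pre n (g z) = pre n z) ∧ ∀ z, pre n z ∈ s → g z = z}
  one_mem' := ⟨fun _ => rfl, fun _ _ => rfl⟩
  mul_mem' := by
    rintro a b ⟨a1, a2⟩ ⟨b1, b2⟩
    exact ⟨fun z => by rw [Equiv.Perm.mul_apply, a1, b1], fun z hz => by rw [Equiv.Perm.mul_apply, b2 z hz, a2 z hz]⟩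
  inv_mem' := by
    rintro a ⟨a1, a2⟩
    refine ⟨fun z => by rw [← a1 (a⁻¹ z), app_inv], fun z hz => ?_⟩
    conv_lhs => rw [← a2 z hz]
    rw [inv_app]

/-- absence of free subgroups -/
theorem no_free (hT : ∀ h : S.H, ∃ N, 0 < N ∧ h ^ N = 1)
    (hgr : ∀ C : ℕ, ∃ K0, ∀ K, K0 ≤ K → ∃ r, r * C + 1 < 2^(K+1) ∧ Fintype.card (S.V (K+3)) < 2^r) :
    ¬ ∃ f : FreeGroup (Fin 2) →* GG S, Function.Injective f := by
  classical
  rintro ⟨f, hf⟩
  -- every point has a neighbourhood fixed by a nontrivial element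
  have h1 : ∀ x : S.Bd, ∃ w : FreeGroup (Fin 2), w ≠ 1 ∧ ∃ n, ∀ z : S.Bd, pre n z = pre n x → (f w : Equiv.Perm S.Bd) z = z := by
    intro x
    obtain ⟨l, l', hne, _, he⟩ := no_free_orbit hgr (f (FreeGroup.of 0)).2 (f (FreeGroup.of 1)).2 x
    set w1 := wd (FreeGroup.of (0 : Fin 2)) (FreeGroup.of 1) l with hw1
    set w2 := wd (FreeGroup.of (0 : Fin 2)) (FreeGroup.of 1) l' with hw2
    have e1 : ∀ l : List Bool, ((f (wd (FreeGroup.of (0 : Fin 2)) (FreeGroup.of 1) l) : GG S) : Equiv.Perm S.Bd)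
        = wd ((f (FreeGroup.of 0) : GG S) : Equiv.Perm S.Bd) ((f (FreeGroup.of 1) : GG S) : Equiv.Perm S.Bd) l := by
      intro l
      rw [map_wd f]
      exact map_wd (GG S).subtype _ _ l
    rw [← e1, ← e1] at he
    have hw : w1⁻¹ * w2 ≠ 1 := fun hc => hne (wd_inj (inv_mul_eq_one.1 hc))
    have hfix : ((f (w1⁻¹ * w2) : GG S) : Equiv.Perm S.Bd) x = x := by
      rw [map_mul, map_inv, Subgroup.coe_mul, Subgroup.coe_inv, Equiv.Perm.mul_apply, ← he, inv_app]
    obtain ⟨N, hN, n, hn⟩ := torsion_germ hT (f (w1⁻¹ * w2)).2 hfix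
    refine ⟨(w1⁻¹ * w2) ^ N, fun hc => hw ?_, n, fun z hz => ?_⟩
    · exact pow_left_injective hN.ne' (hc.trans (one_pow N).symm)
    · rw [map_pow, Subgroup.coe_pow]
      exact hn z hz
  choose w hw1 nn hnn using h1
  -- compactness
  obtain ⟨n, hn⟩ : ∃ n, ∀ v : S.V n, ∃ w : FreeGroup (Fin 2), w ≠ 1 ∧ ∀ z : S.Bd, pre n z = v → (f w : Equiv.Perm S.Bd) z = z := by
    letI : ∀ i, TopologicalSpace (S.X i) := fun _ => ⊥
    haveI : ∀ i, DiscreteTopology (S.X i) := fun _ => ⟨rfl⟩
    have hcont : ∀ n, Continuous (pre (S := S) n) := fun n => continuous_pi fun i => continuous_apply _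
    have hopen : ∀ x : S.Bd, IsOpen (pre (S := S) (nn x) ⁻¹' {pre (nn x) x}) := fun x =>
      (hcont _).isOpen_preimage _ (isOpen_discrete _)
    obtain ⟨t, ht⟩ := isCompact_univ.elim_finite_subcover (fun x : S.Bd => pre (S := S) (nn x) ⁻¹' {pre (nn x) x}) hopen
      (fun x _ => Set.mem_iUnion.2 ⟨x, rfl⟩)
    refine ⟨t.sup nn, fun v => ?_⟩
    obtain ⟨x, hx⟩ := Set.mem_iUnion.1 (ht (Set.mem_univ (up _ v)))
    obtain ⟨hxt, hx⟩ := Set.mem_iUnion.1 hx
    have hx' : pre (nn x) (up (t.sup nn) v) = pre (nn x) x := hx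
    refine ⟨w x, hw1 x, fun z hz => hnn x z ?_⟩
    rw [← hx']
    refine pre_mono (Finset.le_sup hxt) ?_
    rw [hz, pre_up]
  -- powers preserve the level
  have hM : ∀ w : FreeGroup (Fin 2), ∀ z, pre n ((f (w ^ Fintype.card (Equiv.Perm (S.V n))) : Equiv.Perm S.Bd) z) = pre n z := by
    intro w
    rw [← lvl_ker, MonoidHom.mem_ker, map_pow, map_pow]
    exact pow_card_eq_one
  have hMne : ∀ w : FreeGroup (Fin 2), w ≠ 1 → w ^ Fintype.card (Equiv.Perm (S.V n)) ≠ 1 := fun w hw hc =>
    hw (pow_left_injective Fintype.card_ne_zero (hc.trans (one_pow _).symm))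
  -- combination
  have key : ∀ s : Finset (S.V n), ∃ w : FreeGroup (Fin 2), w ≠ 1 ∧ (f w : Equiv.Perm S.Bd) ∈ FixS n (s : Set (S.V n)) := by
    intro s
    induction s using Finset.induction_on with
    | empty =>
      refine ⟨FreeGroup.of 0 ^ Fintype.card (Equiv.Perm (S.V n)), hMne _ (FreeGroup.of_ne_one 0), hM _, fun z hz => ?_⟩
      simp at hz
    | insert v s hv ih =>
      obtain ⟨w1, hw1, h1⟩ := ih
      obtain ⟨w0, hw0, h0⟩ := hn v
      set w2 := w0 ^ Fintype.card (Equiv.Perm (S.V n)) with hw2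
      have hw2' : w2 ≠ 1 := hMne w0 hw0
      have h2 : (f w2 : Equiv.Perm S.Bd) ∈ FixS n ({v} : Set (S.V n)) := by
        refine ⟨hM w0, fun z hz => ?_⟩
        have h3 : (f w0 : Equiv.Perm S.Bd) z = z := h0 z hz
        rw [hw2, map_pow, Subgroup.coe_pow]
        have : ∀ m : ℕ, ((f w0 : Equiv.Perm S.Bd) ^ m) z = z := by
          intro m
          induction m with
          | zero => rfl
          | succ m ih => rw [pow_succ, Equiv.Perm.mul_apply, h3, ih]
        exact this _
      have hins : ∀ g : Equiv.Perm S.Bd, g ∈ FixS n (s : Set (S.V n)) → g ∈ FixS n ({v} : Set (S.V n)) →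
          g ∈ FixS n ((insert v s : Finset (S.V n)) : Set (S.V n)) := by
        intro g hg1 hg2
        refine ⟨hg1.1, fun z hz => ?_⟩
        rw [Finset.coe_insert, Set.mem_insert_iff] at hz
        rcases hz with hz | hz
        · exact hg2.2 z hz
        · exact hg1.2 z hz
      by_cases hc : Commute w1 w2
      · obtain ⟨r, i, j, hi, hj⟩ := exists_root hc
        have hi0 : i ≠ 0 := by rintro rfl; exact hw1 (by rw [hi, zpow_zero])
        have hj0 : j ≠ 0 := by rintro rfl; exact hw2' (by rw [hj, zpow_zero])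
        have e : w1 ^ j = w2 ^ i := by rw [hi, hj, ← zpow_mul, ← zpow_mul, mul_comm]
        refine ⟨w1 ^ j, fun hcon => hw1 ?_, hins _ ?_ ?_⟩
        · exact zpow_left_injective hj0 (hcon.trans (one_zpow j).symm)
        · rw [map_zpow, Subgroup.coe_zpow]
          exact Subgroup.zpow_mem _ h1 j
        · rw [e, map_zpow, Subgroup.coe_zpow]
          exact Subgroup.zpow_mem _ h2 i
      · refine ⟨w1 * w2 * w1⁻¹ * w2⁻¹, fun hcon => hc ?_, ?_⟩
        · have := mul_inv_eq_one.1 hcon
          exact mul_inv_eq_iff_eq_mul.1 this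
        · have e : ((f (w1 * w2 * w1⁻¹ * w2⁻¹) : GG S) : Equiv.Perm S.Bd)
              = (f w1 : Equiv.Perm S.Bd) * (f w2 : Equiv.Perm S.Bd) * (f w1 : Equiv.Perm S.Bd)⁻¹ * (f w2 : Equiv.Perm S.Bd)⁻¹ := by
            simp only [map_mul, map_inv, Subgroup.coe_mul, Subgroup.coe_inv]
          have i1 := inv_mem h1
          have i2 := inv_mem h2
          rw [e]
          refine hins _ ⟨fun z => ?_, fun z hz => ?_⟩ ⟨fun z => ?_, fun z hz => ?_⟩
          · simp only [Equiv.Perm.mul_apply]
            rw [h1.1, h2.1, i1.1, i2.1]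
          · simp only [Equiv.Perm.mul_apply]
            rw [i1.2 _ (by rw [i2.1]; exact hz), app_inv, h1.2 z hz]
          · simp only [Equiv.Perm.mul_apply]
            rw [h1.1, h2.1, i1.1, i2.1]
          · simp only [Equiv.Perm.mul_apply]
            rw [i2.2 z hz, h2.2 _ (by rw [i1.1]; exact hz), app_inv]
  obtain ⟨w, hw, hw'⟩ := key Finset.univ
  apply hw
  apply hf
  rw [map_one]
  apply Subtype.ext
  ext z : 1
  exact hw'.2 z (Finset.mem_coe.2 (Finset.mem_univ _))

end Pool.Agent.Helper889.Nb
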