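import Mathlib
import Pool.Agent.Helper889.Nb.NoFree

set_option autoImplicit false
set_option linter.unusedSectionVars false
set_option linter.unusedVariables false

namespace Pool.Agent.Helper889.Nb

open Pool.Agent.Helper889.Br

/-- product of permutations -/
def prodHom (A B : Type) : Equiv.Perm A × Equiv.Perm B →* Equiv.Perm (A × B) where
  toFun := fun p => Equiv.prodCongr p.1 p.2
  map_one' := rfl
  map_mul' := fun _ _ => rfl

section
variable {H0 : Type} [Group H0] (N : ℕ → Subgroup H0)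

/-- sizes of the alphabets -/
noncomputable def mm : ℕ → ℕ
  | 0 => 3
  | (k+1) => (N k).index * 3

variable [hfi : ∀ k, (N k).FiniteIndex]

/-- the letters -/
noncomputable def ee (k : ℕ) : (H0 ⧸ N k) × Fin 3 ≃ Fin (mm N (k+1)) :=
  (Equiv.prodCongr (Finite.equivFin (H0 ⧸ N k)) (Equiv.refl (Fin 3))).trans finProdFinEquiv

/-- the special letters -/
noncomputable def val : ∀ n, Fin 3 → Fin (mm N n)
  | 0 => fun b => b
  | (k+1) => fun b => ee N k (((1 : H0) : H0 ⧸ N k), b)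

theorem val_inj (n : ℕ) : Function.Injective (val N n) := by
  cases n with
  | zero => exact fun a b h => h
  | succ k =>
    intro a b h
    exact congrArg Prod.snd ((ee N k).injective h)

/-- the action on letters -/
noncomputable def rr (k : ℕ) : H0 × Equiv.Perm (Fin 3) →* Equiv.Perm (Fin (mm N (k+1))) :=
  (ee N k).permCongrHom.toMonoidHom.comp ((prodHom (H0 ⧸ N k) (Fin 3)).comp
    (MonoidHom.prodMap (MulAction.toPermHom H0 (H0 ⧸ N k)) (MonoidHom.id _)))

theorem rr_apply (k : ℕ) (h : H0) (q : Equiv.Perm (Fin 3)) (a : H0 ⧸ N k) (b : Fin 3) :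
    rr N k (h, q) (ee N k (a, b)) = ee N k (h • a, q b) := by
  show ee N k ((prodHom (H0 ⧸ N k) (Fin 3) (MulAction.toPermHom H0 (H0 ⧸ N k) h, q)) ((ee N k).symm (ee N k (a, b)))) = _
  rw [Equiv.symm_apply_apply]
  rfl

/-- the system -/
@[reducible] noncomputable def S2 : Sys where
  X := fun i => Fin (mm N i)
  fin := fun i => inferInstance
  dec := fun i => inferInstance
  o := fun n => val N n 0
  t := fun n => val N n 1
  hot := fun n h => by
    have := val_inj N n h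
    exact absurd this (by decide)
  H := H0 × Equiv.Perm (Fin 3)
  grp := inferInstance
  ρ := rr N

theorem S2_AA (n : ℕ) (q : Equiv.Perm (Fin 3)) : ∃ a ∈ AA (S2 N) n, ∀ b, a (val N n b) = val N n (q b) := by
  cases n with
  | zero => exact ⟨q, Subgroup.mem_top _, fun b => rfl⟩
  | succ k =>
    refine ⟨rr N k (1, q), ⟨(1, q), rfl⟩, fun b => ?_⟩
    show rr N k (1, q) (ee N k (((1 : H0) : H0 ⧸ N k), b)) = ee N k (((1 : H0) : H0 ⧸ N k), q b)
    rw [rr_apply, one_smul]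

theorem S2_A1 (n : ℕ) : ∃ a ∈ AA (S2 N) n, a ((S2 N).o n) = (S2 N).o n ∧ a ((S2 N).t n) ≠ (S2 N).t n := by
  obtain ⟨a, ha, h⟩ := S2_AA N n (Equiv.swap 1 2)
  refine ⟨a, ha, ?_, ?_⟩
  · show a (val N n 0) = val N n 0
    rw [h]; congr 1
  · show a (val N n 1) ≠ val N n 1
    rw [h]
    exact fun hc => absurd (val_inj N n hc) (by decide)

theorem S2_A2 (n : ℕ) : ∃ a ∈ AA (S2 N) n, a ((S2 N).t n) = (S2 N).o n ∧ a ((S2 N).o n) ≠ (S2 N).o n ∧
    a ((S2 N).o n) ≠ (S2 N).t n := by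
  obtain ⟨a, ha, h⟩ := S2_AA N n (Equiv.swap 0 1 * Equiv.swap 0 2)
  refine ⟨a, ha, ?_, ?_, ?_⟩
  · show a (val N n 1) = val N n 0
    rw [h]; congr 1
  · show a (val N n 0) ≠ val N n 0
    rw [h]
    exact fun hc => absurd (val_inj N n hc) (by decide)
  · show a (val N n 0) ≠ val N n 1
    rw [h]
    exact fun hc => absurd (val_inj N n hc) (by decide)

theorem S2_A3 (n : ℕ) : ∃ a ∈ AA (S2 N) n, a ((S2 N).t n) = (S2 N).o n ∧ a ((S2 N).o n) = (S2 N).t n := by
  obtain ⟨a, ha, h⟩ := S2_AA N n (Equiv.swap 0 1)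
  refine ⟨a, ha, ?_, ?_⟩
  · show a (val N n 1) = val N n 0
    rw [h]; congr 1
  · show a (val N n 0) = val N n 1
    rw [h]; congr 1

theorem S2_trans (k : ℕ) (x : (S2 N).X (k+1)) : ∃ h, (S2 N).ρ k h x = (S2 N).o (k+1) := by
  obtain ⟨⟨a, b⟩, rfl⟩ := (ee N k).surjective x
  obtain ⟨g, rfl⟩ := QuotientGroup.mk_surjective a
  refine ⟨(g⁻¹, Equiv.swap b 0), ?_⟩
  show rr N k (g⁻¹, Equiv.swap b 0) (ee N k ((g : H0 ⧸ N k), b)) = ee N k (((1 : H0) : H0 ⧸ N k), 0)
  rw [rr_apply, Equiv.swap_apply_left]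
  congr 2
  show ((g⁻¹ * g : H0) : H0 ⧸ N k) = _
  rw [inv_mul_cancel]

theorem S2_faithful (hN : ∀ h : H0, h ≠ 1 → ∃ k, h ∉ N k) (h : H0) (hh : ∀ k, rr N k (h, 1) = 1) : h = 1 := by
  by_contra hc
  obtain ⟨k, hk⟩ := hN h hc
  apply hk
  have h1 := rr_apply N k h 1 ((1 : H0) : H0 ⧸ N k) 0
  rw [hh k] at h1
  have h2 := (ee N k).injective (h1 : ee N k (((1 : H0) : H0 ⧸ N k), 0) = _)
  have h3 : ((1 : H0) : H0 ⧸ N k) = ((h * 1 : H0) : H0 ⧸ N k) := congrArg Prod.fst h2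
  rw [mul_one, QuotientGroup.eq, inv_one, one_mul] at h3
  exact h3

theorem pow_bound (K : ℕ) (hK : 12 ≤ K) : (K+5)^3 < 2^(K+1) := by
  induction K, hK using Nat.le_induction with
  | base => norm_num
  | succ K hK ih =>
    have h1 : (K+1+5)^3 ≤ 2 * (K+5)^3 := by
      have : (K+1+5)^3 = (K+5)^3 + 3*(K+5)^2 + 3*(K+5) + 1 := by ring
      rw [this]
      have h2 : (K+5)^3 = (K+5)*(K+5)^2 := by ring
      nlinarith [Nat.zero_le K, sq_nonneg (K : ℤ)]
    calc (K+1+5)^3 ≤ 2 * (K+5)^3 := h1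
      _ < 2 * 2^(K+1) := by omega
      _ = 2^(K+1+1) := by ring

theorem S2_growth (hN : ∀ k, (N k).index ≤ k + 1) (C : ℕ) :
    ∃ K0, ∀ K, K0 ≤ K → ∃ r, r * C + 1 < 2^(K+1) ∧ Fintype.card ((S2 N).V (K+3)) < 2^r := by
  refine ⟨max 12 C, fun K hK => ⟨(K+5)*(K+3), ?_, ?_⟩⟩
  · have h1 : 12 ≤ K := (le_max_left _ _).trans hK
    have h2 : C ≤ K := (le_max_right _ _).trans hK
    refine lt_of_le_of_lt ?_ (pow_bound K h1)
    have : (K+5)*(K+3)*C + 1 ≤ (K+5)*(K+3)*K + 1 := by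
      have := Nat.mul_le_mul_left ((K+5)*(K+3)) h2
      omega
    refine this.trans ?_
    nlinarith
  · have hm : ∀ i : Fin (K+3), Fintype.card (Fin (mm N i)) ≤ 3 * (K+3) := by
      intro i
      rw [Fintype.card_fin]
      obtain ⟨i, hi⟩ := i
      cases i with
      | zero => show 3 ≤ _; omega
      | succ k =>
        show (N k).index * 3 ≤ _
        have := hN k
        omega
    have h1 : Fintype.card ((S2 N).V (K+3)) ≤ (3 * (K+3))^(K+3) := by
      show Fintype.card ((i : Fin (K+3)) → Fin (mm N i)) ≤ _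
      rw [Fintype.card_pi]
      refine (Finset.prod_le_prod' fun i _ => hm i).trans ?_
      rw [Finset.prod_const, Finset.card_univ, Fintype.card_fin]
    refine lt_of_le_of_lt h1 ?_
    rw [pow_mul]
    refine Nat.pow_lt_pow_left ?_ (by omega)
    have : ∀ K : ℕ, 3 * (K+3) < 2^(K+5) := by
      intro K
      induction K with
      | zero => norm_num
      | succ K ih =>
        have : 2^(K+1+5) = 2 * 2^(K+5) := by ring
        omega
    exact this K

end

theorem dir_triv {S : Sys} {h : S.H} (hh : dir 0 h = 1) (k : ℕ) : S.ρ k h = 1 := by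
  ext1 y
  set z : S.Bd := Function.update (xk k) (k+1) y with hz
  have hs : S.Sg 0 k z := by
    refine ⟨Nat.zero_le _, ?_, fun j _ hj => ?_⟩
    · rw [hz, Function.update_of_ne (by omega)]
      unfold xk
      rw [if_pos rfl]
    · rw [hz, Function.update_of_ne (by omega)]
      unfold xk
      rw [if_neg (by omega)]
  have h1 := congrFun (congrArg (fun g : Equiv.Perm S.Bd => g z) hh) (k+1)
  have h2 : S.dirPt 0 h z (k+1) = z (k+1) := h1
  rw [dirPt_succ_pos _ hs, hz, Function.update_self] at h2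
  exact h2

theorem fg_GG {S : Sys} [Group.FG S.H] : Group.FG (GG S) := by
  have h1 : GG S = (dir (S := S) 0).range ⊔ (root (S := S)).range := by
    unfold GG
    rw [Subgroup.closure_union]
    congr 1
    · rw [← MonoidHom.coe_range, Subgroup.closure_eq]
    · rw [← MonoidHom.coe_range, Subgroup.closure_eq]
  rw [Group.fg_iff_subgroup_fg, h1]
  refine Subgroup.FG.sup ?_ ?_
  · rw [← Group.fg_iff_subgroup_fg]; infer_instance
  · rw [← Group.fg_iff_subgroup_fg]; infer_instance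

theorem exists_slow {H0 : Type} [Group H0] [Countable H0] (rf : ∀ h : H0, h ≠ 1 → ∃ N : Subgroup H0, N.FiniteIndex ∧ h ∉ N) :
    ∃ N : ℕ → Subgroup H0, (∀ k, (N k).FiniteIndex) ∧ (∀ k, (N k).index ≤ k + 1) ∧ ∀ h : H0, h ≠ 1 → ∃ k, h ∉ N k := by
  classical
  obtain ⟨en, hen⟩ := exists_surjective_nat H0
  have hM : ∀ i, ∃ M : Subgroup H0, M.FiniteIndex ∧ (en i ≠ 1 → en i ∉ M) := by
    intro i
    by_cases h : en i = 1
    · exact ⟨⊤, inferInstance, fun hc => absurd h hc⟩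
    · obtain ⟨M, hM, hM'⟩ := rf _ h
      exact ⟨M, hM, fun _ => hM'⟩
  choose M hM1 hM2 using hM
  refine ⟨fun k => if (M (Nat.unpair k).1).index ≤ k + 1 then M (Nat.unpair k).1 else ⊤, fun k => ?_, fun k => ?_, fun h hh => ?_⟩
  · simp only
    split_ifs
    · exact hM1 _
    · infer_instance
  · simp only
    split_ifs with hk
    · exact hk
    · rw [Subgroup.index_top]; omega
  · obtain ⟨i, rfl⟩ := hen h
    refine ⟨Nat.pair i (M i).index, ?_⟩
    simp only [Nat.unpair_pair]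
    rw [if_pos (by have := Nat.right_le_pair i (M i).index; omega)]
    exact hM2 i hh

/-- Every countable finitely generated residually finite torsion group embeds in a finitely generated branch group without
free subgroups. -/
theorem embed (H0 : Type) [Group H0] [Group.FG H0] [Countable H0] (tors : ∀ h : H0, ∃ n, 0 < n ∧ h ^ n = 1)
    (rf : ∀ h : H0, h ≠ 1 → ∃ N : Subgroup H0, N.FiniteIndex ∧ h ∉ N) :
    ∃ m : ℕ → ℕ, (∀ i, 2 ≤ m i) ∧ ∃ G : Subgroup (Equiv.Perm ((i : ℕ) → Fin (m i))), Group.FG ↥G ∧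
      (∀ g ∈ G, ∀ x y : (i : ℕ) → Fin (m i), ∀ n : ℕ, (∀ i < n, x i = y i) → ∀ i < n, g x i = g y i) ∧
      (∀ x y : (i : ℕ) → Fin (m i), ∀ n : ℕ, ∃ g ∈ G, ∀ i < n, g x i = y i) ∧
      (∀ n : ℕ, ∃ Z : Subgroup G, Z.FiniteIndex ∧ ∀ g ∈ Z, (g : Equiv.Perm ((i : ℕ) → Fin (m i))) ∈ Subgroup.closure
        {g : Equiv.Perm ((i : ℕ) → Fin (m i)) | g ∈ G ∧ ∃ v : (i : ℕ) → Fin (m i), ∀ x : (i : ℕ) → Fin (m i),
            (∃ i < n, x i ≠ v i) → g x = x}) ∧
      (¬ ∃ f : FreeGroup (Fin 2) →* ↥G, Function.Injective f) ∧ ∃ ι : H0 →* G, Function.Injective ι := by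
  obtain ⟨N, hN1, hN2, hN3⟩ := exists_slow rf
  have hfgH : Group.FG (S2 N).H := (inferInstance : Group.FG (H0 × Equiv.Perm (Fin 3)))
  have hTH : ∀ h : (S2 N).H, ∃ n, 0 < n ∧ h ^ n = 1 := by
    rintro ⟨h, q⟩
    obtain ⟨n, hn, hn'⟩ := tors h
    refine ⟨n * Fintype.card (Equiv.Perm (Fin 3)), Nat.mul_pos hn Fintype.card_pos, ?_⟩
    show ((h, q) : H0 × Equiv.Perm (Fin 3)) ^ _ = 1
    rw [Prod.pow_mk, pow_mul, hn', one_pow, pow_mul', pow_card_eq_one, one_pow]
    rfl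
  have hab : Finite (Abelianization (S2 N).H) := by
    have hfg : Group.FG (Abelianization (S2 N).H) := QuotientGroup.fg (commutator (S2 N).H)
    refine CommGroup.finite_of_fg_isMulTorsion _ ?_
    intro y
    obtain ⟨x, rfl⟩ := QuotientGroup.mk_surjective y
    obtain ⟨n, hn, hn'⟩ := hTH x
    change IsOfFinOrder (Abelianization.of x)
    refine isOfFinOrder_iff_pow_eq_one.2 ⟨n, hn, ?_⟩
    rw [← map_pow, hn', map_one]
  refine ⟨mm N, ?_, GG (S2 N), fg_GG (S := S2 N), ?_, ?_, ?_, ?_, ?_⟩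
  · intro i
    cases i with
    | zero => show 2 ≤ 3; omega
    | succ k =>
      show 2 ≤ (N k).index * 3
      have := (hN1 k).index_ne_zero
      omega
  · intro g hg x y n
    exact (TA_GG (S := S2 N) hg x y n).1
  · intro x y n
    obtain ⟨g1, h1, h1'⟩ := trans_GG (S := S2 N) (S2_trans N) n x
    obtain ⟨g2, h2, h2'⟩ := trans_GG (S := S2 N) (S2_trans N) n y
    refine ⟨g2⁻¹ * g1, mul_mem (inv_mem h2) h1, ?_⟩
    have e : g2⁻¹ (g2 y) = y := g2.symm_apply_apply y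
    have h3 : pre (S := S2 N) n (g2⁻¹ (g1 x)) = pre (S := S2 N) n (g2⁻¹ (g2 y)) := by
      rw [pre_eq_iff, ← TA_inv (TA_GG (S := S2 N) h2), ← pre_eq_iff, h1', h2']
    rw [e] at h3
    exact pre_eq_iff.1 h3
  · intro n
    obtain ⟨Z, hZ, hZ'⟩ := rist_index (S := S2 N) (S2_trans N) (S2_A1 N) (S2_A2 N) (S2_A3 N) n
    refine ⟨Z, hZ, fun g hg => ?_⟩
    refine Subgroup.closure_mono ?_ (hZ' g hg)
    rintro g ⟨hg, v, hv⟩
    refine ⟨hg, up (S := S2 N) n v, fun x hx => hv x ?_⟩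
    rintro rfl
    obtain ⟨i, hi, hne⟩ := hx
    apply hne
    show x i = up (S := S2 N) n (pre (S := S2 N) n x) i
    unfold up
    rw [dif_pos hi]
    rfl
  · exact no_free (S := S2 N) hTH (S2_growth N hN2)
  · refine ⟨(dirG (S := S2 N)).comp (MonoidHom.inl H0 (Equiv.Perm (Fin 3))), ?_⟩
    rw [injective_iff_map_eq_one]
    intro h hh
    refine S2_faithful N hN3 h fun k => ?_
    have h1 : dir (S := S2 N) 0 ((h, 1) : H0 × Equiv.Perm (Fin 3)) = 1 := congrArg Subtype.val hh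
    exact dir_triv (S := S2 N) h1 k

end Pool.Agent.Helper889.Nb
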