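import Mathlib
import Pool.Agent.Helper889.Nb.Conc
import Pool.Agent.Helper940.NonAmen3

set_option autoImplicit false

namespace Pool.Agent.Helper889.Nb

open Pool.Agent.Helper940.NonAmen

/-- the torsion group -/
abbrev T0 : Type := F ⧸ Rhat

instance : Countable T0 := (QuotientGroup.mk_surjective (s := Rhat)).countable

theorem T0_tors (h : T0) : ∃ n, 0 < n ∧ h ^ n = 1 := by
  obtain ⟨w, rfl⟩ := QuotientGroup.mk_surjective h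
  obtain ⟨i, rfl⟩ := en_surj w
  refine ⟨2^(i+2), by positivity, ?_⟩
  rw [← QuotientGroup.mk_pow, QuotientGroup.eq_one_iff, mem_Rhat]
  intro Q _ _ _ ρ hρ
  rw [map_pow]
  exact hρ i

theorem T0_rf (h : T0) (hh : h ≠ 1) : ∃ N : Subgroup T0, N.FiniteIndex ∧ h ∉ N := by
  obtain ⟨w, rfl⟩ := QuotientGroup.mk_surjective h
  have hw : w ∉ Rhat := fun hc => hh ((QuotientGroup.eq_one_iff w).2 hc)
  rw [mem_Rhat] at hw
  push Not at hw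
  obtain ⟨Q, _, _, hQ, ρ, hρ, hne⟩ := hw
  let φ : T0 →* Q := QuotientGroup.lift Rhat ρ fun x hx => hx Q hQ ρ hρ
  refine ⟨φ.ker, Subgroup.finiteIndex_ker φ, fun hc => hne ?_⟩
  exact (MonoidHom.mem_ker.1 hc)

theorem branch : ∃ m : ℕ → ℕ, (∀ i, 2 ≤ m i) ∧ ∃ G : Subgroup (Equiv.Perm ((i : ℕ) → Fin (m i))), Group.FG ↥G ∧
      (∀ g ∈ G, ∀ x y : (i : ℕ) → Fin (m i), ∀ n : ℕ, (∀ i < n, x i = y i) → ∀ i < n, g x i = g y i) ∧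
      (∀ x y : (i : ℕ) → Fin (m i), ∀ n : ℕ, ∃ g ∈ G, ∀ i < n, g x i = y i) ∧
      (∀ n : ℕ, ∃ Z : Subgroup G, Z.FiniteIndex ∧ ∀ g ∈ Z, (g : Equiv.Perm ((i : ℕ) → Fin (m i))) ∈ Subgroup.closure
        {g : Equiv.Perm ((i : ℕ) → Fin (m i)) | g ∈ G ∧ ∃ v : (i : ℕ) → Fin (m i), ∀ x : (i : ℕ) → Fin (m i),
            (∃ i < n, x i ≠ v i) → g x = x}) ∧
      (¬ ∃ f : FreeGroup (Fin 2) →* ↥G, Function.Injective f) ∧
      ¬ ∃ μ : Set ↥G → ℝ, μ Set.univ = 1 ∧ (∀ A, 0 ≤ μ A) ∧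
        (∀ A B : Set ↥G, Disjoint A B → μ (A ∪ B) = μ A + μ B) ∧
        ∀ (g : ↥G) (A : Set ↥G), μ ((fun x => g * x) '' A) = μ A := by
  obtain ⟨m, hm, G, h1, h2, h3, h4, h5, ι, hι⟩ := embed T0 T0_tors T0_rf
  refine ⟨m, hm, G, h1, h2, h3, h4, h5, ?_⟩
  rintro ⟨μ, m1, m2, m3, m4⟩
  exact no_mean ι hι (m := μ) ⟨m1, m2, m3, m4⟩

end Pool.Agent.Helper889.Nb
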